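import Pool.Agent.N20.EW.Stm2

/-!
# Project EW (helper20), part EXT (helper27): blocks of a normal subgroup below a block
-/

set_option autoImplicit false
set_option linter.unusedSectionVars false

open scoped Classical BigOperators

noncomputable section

namespace Pool.Agent.N27.EW

open Pool.Agent.Y63.NV
open Pool.Agent.N20.EW

section

variable {F : Type} [Field F] {H : Type} [Group H] [Finite H]

/-- a function as an element of the group algebra -/
def ofF (f : H → F) : MonoidAlgebra F H := MonoidAlgebra.ofCoeff (Finsupp.equivFunOnFinite.symm f)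

lemma coeff_ofF (f : H → F) (x : H) : (ofF f).coeff x = f x := rfl

lemma ofF_inj {a b : MonoidAlgebra F H} (h : ∀ x, a.coeff x = b.coeff x) : a = b := by
  ext x
  exact h x

omit [Finite H] in
lemma class_iff (z : MonoidAlgebra F H) :
    z ∈ Subalgebra.center F (MonoidAlgebra F H) ↔ IsClassFun (fun x => z.coeff x) := by
  rw [Subalgebra.mem_center_iff]
  constructor
  · intro h g x
    have h1 := congrArg (fun a => MonoidAlgebra.coeff a (g * x)) (h (MonoidAlgebra.single g 1))
    simp only [MonoidAlgebra.coeff_single_mul_apply, MonoidAlgebra.coeff_mul_single_apply,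
      one_mul, mul_one, inv_mul_cancel_left] at h1
    exact h1.symm
  · intro h a
    ext g
    rw [MonoidAlgebra.coeff_mul_apply_left, MonoidAlgebra.coeff_mul_apply_right]
    refine Finsupp.sum_congr fun y _ => ?_
    have h1 : z.coeff (y * (y⁻¹ * g) * y⁻¹) = z.coeff (y⁻¹ * g) := h y (y⁻¹ * g)
    rw [mul_inv_cancel_left] at h1
    rw [h1, mul_comm]

lemma coeff_mul_eq (z w : MonoidAlgebra F H) :
    (fun x => (z * w).coeff x) = conv (fun x => z.coeff x) (fun x => w.coeff x) := by
  have := Fintype.ofFinite H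
  funext x
  rw [MonoidAlgebra.coeff_mul_apply_left, Finsupp.sum_fintype _ _ (fun i => by rw [zero_mul])]
  unfold conv
  rw [finsum_eq_sum_of_fintype]

lemma ofF_conv (f g : H → F) : ofF (conv f g) = ofF f * ofF g := by
  apply ofF_inj
  intro x
  have h := congrFun (coeff_mul_eq (ofF f) (ofF g)) x
  exact h.symm

lemma ofF_one : ofF (Pi.single 1 1 : H → F) = 1 := by
  apply ofF_inj
  intro x
  rw [coeff_ofF, MonoidAlgebra.one_def, MonoidAlgebra.coeff_single, Finsupp.single_apply,
    Pi.single_apply]
  by_cases hx : x = 1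
  · rw [if_pos hx, if_pos hx.symm]
  · rw [if_neg hx, if_neg (fun h => hx h.symm)]

lemma ofF_add (f g : H → F) : ofF (f + g) = ofF f + ofF g := by
  apply ofF_inj
  intro x
  rfl

lemma ofF_smul (c : F) (f : H → F) : ofF (c • f) = c • ofF f := by
  apply ofF_inj
  intro x
  rfl

lemma class_add {f g : H → F} (hf : IsClassFun f) (hg : IsClassFun g) : IsClassFun (f + g) := by
  intro a x
  rw [Pi.add_apply, Pi.add_apply, hf a x, hg a x]

lemma class_smul (c : F) {f : H → F} (hf : IsClassFun f) : IsClassFun (c • f) := by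
  intro a x
  rw [Pi.smul_apply, Pi.smul_apply, hf a x]

lemma class_one : IsClassFun (Pi.single 1 1 : H → F) := by
  intro g x
  have h1 : (g * x * g⁻¹ = 1) ↔ (x = 1) := by
    rw [mul_inv_eq_one, mul_eq_left]
  simp only [Pi.single_apply, h1]

lemma class_conv {f g : H → F} (hf : IsClassFun f) (hg : IsClassFun g) :
    IsClassFun (conv f g) := by
  have h1 : ofF (conv f g) ∈ Subalgebra.center F (MonoidAlgebra F H) := by
    rw [ofF_conv]
    exact mul_mem ((class_iff _).2 hf) ((class_iff _).2 hg)
  exact (class_iff _).1 h1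

/-- a class function as an element of the centre -/
def ofC (f : H → F) (hf : IsClassFun f) : Subalgebra.center F (MonoidAlgebra F H) :=
  ⟨ofF f, (class_iff _).mpr hf⟩

/-- an algebra homomorphism from the centre gives a block -/
def toB (φ : Subalgebra.center F (MonoidAlgebra F H) →ₐ[F] F) (f : H → F) : F :=
  if hf : IsClassFun f then φ (ofC f hf) else 0

lemma toB_block (φ : Subalgebra.center F (MonoidAlgebra F H) →ₐ[F] F) : IsBlock (toB φ) := by
  constructor
  · intro f g hf hg
    unfold toB
    rw [dif_pos hf, dif_pos hg, dif_pos (class_add hf hg), ← map_add]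
    exact congrArg φ (Subtype.ext (ofF_add f g))
  · intro a f hf
    unfold toB
    rw [dif_pos hf, dif_pos (class_smul a hf), ← smul_eq_mul, ← map_smul]
    exact congrArg φ (Subtype.ext (ofF_smul a f))
  · unfold toB
    rw [dif_pos class_one]
    exact (congrArg φ (Subtype.ext ofF_one)).trans (map_one φ)
  · intro f g hf hg
    unfold toB
    rw [dif_pos hf, dif_pos hg, dif_pos (class_conv hf hg), ← map_mul]
    exact congrArg φ (Subtype.ext (ofF_conv f g))

lemma block_zero {B : (H → F) → F} (hB : IsBlock B) : B 0 = 0 := by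
  have h := hB.smul 0 0 (fun _ _ => rfl)
  rw [zero_smul, zero_mul] at h
  exact h

end

/-! ### Extension of algebra homomorphisms -/

theorem extend_hom {F : Type} [Field F] [IsAlgClosed F] {Z : Type} [CommRing Z] [Algebra F Z]
    [Module.Finite F Z] (A : Subalgebra F Z) (l : A →ₐ[F] F) :
    ∃ φ : Z →ₐ[F] F, ∀ a : A, φ a = l a := by
  have h1 : Algebra.IsIntegral F Z := Algebra.IsIntegral.of_finite F Z
  have h2 : Algebra.IsIntegral A Z := ⟨fun z => (h1.isIntegral z).tower_top⟩
  have h3 : (RingHom.ker l).IsMaximal := by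
    apply RingHom.ker_isMaximal_of_surjective
    intro c
    exact ⟨algebraMap F A c, by rw [AlgHom.commutes]; rfl⟩
  obtain ⟨Q, hQ, hQ2⟩ := Ideal.exists_ideal_over_maximal_of_isIntegral (S := Z) (RingHom.ker l) (by
    intro a ha
    have h4 : (a : Z) = 0 := ha
    have h5 : a = 0 := Subtype.ext h4
    rw [h5]
    exact Ideal.zero_mem _)
  let _ : Field (Z ⧸ Q) := Ideal.Quotient.field Q
  have h4 : Function.Bijective (algebraMap F (Z ⧸ Q)) :=
    IsAlgClosed.algebraMap_bijective_of_isIntegral
  let e : F ≃ₐ[F] (Z ⧸ Q) := AlgEquiv.ofBijective (Algebra.ofId F (Z ⧸ Q)) h4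
  refine ⟨(e.symm : (Z ⧸ Q) →ₐ[F] F).comp (Ideal.Quotient.mkₐ F Q), fun a => ?_⟩
  change e.symm (Ideal.Quotient.mk Q (a : Z)) = l a
  rw [AlgEquiv.symm_apply_eq]
  change Ideal.Quotient.mk Q (a : Z) = algebraMap F (Z ⧸ Q) (l a)
  have h5 : a - algebraMap F A (l a) ∈ RingHom.ker l := by
    rw [RingHom.mem_ker, map_sub, AlgHom.commutes]
    exact sub_self _
  rw [← hQ2, Ideal.mem_comap] at h5
  have h6 : Ideal.Quotient.mk Q ((a : Z) - algebraMap F Z (l a)) = 0 :=
    Ideal.Quotient.eq_zero_iff_mem.2 h5
  rw [map_sub, sub_eq_zero] at h6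
  rw [h6]
  rfl

/-! ### Functions supported on a normal subgroup -/

section

variable {F : Type} [Field F] {G K : Type} [Group G] [Group K] [Finite G] [Finite K] (i : G →* K)

/-- invariant functions -/
def Inv (f : G → F) : Prop := ∀ (k : K) (x y : G), i y = k * i x * k⁻¹ → f y = f x

/-- extension by zero -/
def ex (f : G → F) : K → F := Function.extend i f 0

variable {i}

lemma ex_apply (hi : Function.Injective i) (f : G → F) (x : G) : ex i f (i x) = f x :=
  hi.extend_apply _ _ _

lemma ex_out (f : G → F) {x : K} (hx : x ∉ i.range) : ex i f x = 0 := by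
  unfold ex
  rw [Function.extend_apply']
  · rfl
  · rintro ⟨g, hg⟩
    exact hx ⟨g, hg⟩

lemma ex_class (hi : Function.Injective i) (hn : i.range.Normal) {f : G → F} (hf : Inv i f) :
    IsClassFun (ex i f) := by
  intro k x
  by_cases hx : x ∈ i.range
  · obtain ⟨y, hy⟩ := hx
    have h1 : k * x * k⁻¹ ∈ i.range := hn.conj_mem x ⟨y, hy⟩ k
    obtain ⟨y', hy'⟩ := h1
    rw [← hy', ← hy, ex_apply hi, ex_apply hi]
    apply hf k
    rw [hy', hy]
  · have h1 : k * x * k⁻¹ ∉ i.range := by
      intro h
      apply hx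
      have h2 := hn.conj_mem _ h k⁻¹
      have h3 : k⁻¹ * (k * x * k⁻¹) * k⁻¹⁻¹ = x := by group
      rwa [h3] at h2
    rw [ex_out f hx, ex_out f h1]

lemma ex_add (hi : Function.Injective i) (f g : G → F) : ex i (f + g) = ex i f + ex i g := by
  funext x
  by_cases hx : x ∈ i.range
  · obtain ⟨y, rfl⟩ := hx
    rw [Pi.add_apply, ex_apply hi, ex_apply hi, ex_apply hi, Pi.add_apply]
  · rw [Pi.add_apply, ex_out _ hx, ex_out _ hx, ex_out _ hx, add_zero]

lemma ex_smul (hi : Function.Injective i) (c : F) (f : G → F) : ex i (c • f) = c • ex i f := by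
  funext x
  by_cases hx : x ∈ i.range
  · obtain ⟨y, rfl⟩ := hx
    rw [Pi.smul_apply, ex_apply hi, ex_apply hi, Pi.smul_apply]
  · rw [Pi.smul_apply, ex_out _ hx, ex_out _ hx, smul_zero]

lemma ex_one (hi : Function.Injective i) : ex i (Pi.single 1 1 : G → F) = Pi.single 1 1 := by
  funext x
  by_cases hx : x ∈ i.range
  · obtain ⟨y, rfl⟩ := hx
    have h1 : (i y = 1) ↔ (y = 1) := by
      rw [← map_one i, hi.eq_iff]
    rw [ex_apply hi]
    simp only [Pi.single_apply, h1]
  · rw [ex_out _ hx, Pi.single_apply, if_neg]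
    rintro rfl
    exact hx (one_mem _)

lemma ex_conv (hi : Function.Injective i) (f g : G → F) :
    ex i (conv f g) = conv (ex i f) (ex i g) := by
  have h1 : ∀ x : K, conv (ex i f) (ex i g) x = ∑ᶠ y : G, f y * ex i g (i y⁻¹ * x) := by
    intro x
    unfold conv
    have h2 : ∀ y : K, ex i f y * ex i g (y⁻¹ * x) ≠ 0 → y ∈ Set.range i := by
      intro y hy
      by_contra h
      apply hy
      rw [ex_out f (fun hx => h hx), zero_mul]
    rw [← finsum_mem_univ, finsum_mem_inter_support_eq _ Set.univ (Set.range i)]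
    · rw [finsum_mem_range hi]
      refine finsum_congr fun y => ?_
      rw [ex_apply hi, map_inv]
    · ext y
      simp only [Set.univ_inter, Set.mem_inter_iff, Function.mem_support]
      exact ⟨fun h => ⟨h2 y h, h⟩, fun h => h.2⟩
  funext x
  rw [h1]
  by_cases hx : x ∈ i.range
  · obtain ⟨z, rfl⟩ := hx
    rw [ex_apply hi]
    unfold conv
    refine finsum_congr fun y => ?_
    rw [← map_mul, ex_apply hi]
  · rw [ex_out _ hx, ← finsum_zero (α := G)]
    refine finsum_congr fun y => ?_
    rw [ex_out g, mul_zero]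
    intro h
    apply hx
    have h2 := mul_mem (i.mem_range.2 ⟨y, rfl⟩) h
    have h3 : i y * (i y⁻¹ * x) = x := by
      rw [map_inv, mul_inv_cancel_left]
    rwa [h3] at h2

lemma inv_class {f : G → F} (hf : Inv i f) : IsClassFun f := by
  intro g x
  apply hf (i g)
  rw [map_mul, map_mul, map_inv]

/-- the subalgebra of the invariant elements -/
def AA (hi : Function.Injective i) (hn : i.range.Normal) :
    Subalgebra F (Subalgebra.center F (MonoidAlgebra F G)) where
  carrier := {w | Inv i (fun x => w.1.coeff x)}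
  mul_mem' := by
    intro a b ha hb k x y hxy
    have h1 : ∀ x, (a * b).1.coeff x = ex i (conv (fun x => a.1.coeff x) (fun x => b.1.coeff x)) (i x) := by
      intro x
      rw [ex_apply hi]
      exact congrFun (coeff_mul_eq a.1 b.1) x
    have h2 : IsClassFun (ex i (conv (fun x => a.1.coeff x) (fun x => b.1.coeff x))) := by
      rw [ex_conv hi]
      exact class_conv (ex_class hi hn ha) (ex_class hi hn hb)
    change (a * b).1.coeff y = (a * b).1.coeff x
    rw [h1, h1, hxy]
    exact h2 k (i x)
  add_mem' := by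
    intro a b ha hb k x y hxy
    have h1 : a.1.coeff y = a.1.coeff x := ha k x y hxy
    have h2 : b.1.coeff y = b.1.coeff x := hb k x y hxy
    change a.1.coeff y + b.1.coeff y = a.1.coeff x + b.1.coeff x
    rw [h1, h2]
  algebraMap_mem' := by
    intro c k x y hxy
    have h1 : (algebraMap F (Subalgebra.center F (MonoidAlgebra F G)) c).1 =
        ofF (c • (Pi.single 1 1 : G → F)) := by
      rw [ofF_smul, ofF_one]
      exact Algebra.algebraMap_eq_smul_one c
    have h2 : ∀ x, (algebraMap F (Subalgebra.center F (MonoidAlgebra F G)) c).1.coeff x =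
        ex i (c • (Pi.single 1 1 : G → F)) (i x) := by
      intro x
      rw [h1, ex_apply hi]
      rfl
    have h3 : IsClassFun (ex i (c • (Pi.single 1 1 : G → F))) := by
      rw [ex_smul hi, ex_one hi]
      exact class_smul c class_one
    change (algebraMap F (Subalgebra.center F (MonoidAlgebra F G)) c).1.coeff y =
      (algebraMap F (Subalgebra.center F (MonoidAlgebra F G)) c).1.coeff x
    rw [h2, h2, hxy]
    exact h3 k (i x)

/-- the homomorphism given by the block of `K` -/
def ll (hi : Function.Injective i) (hn : i.range.Normal) {b : (K → F) → F} (hb : IsBlock b) :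
    AA (F := F) hi hn →ₐ[F] F :=
  AlgHom.ofLinearMap
    { toFun := fun w => b (ex i (fun x => w.1.1.coeff x))
      map_add' := fun w w' => by
        have h1 : (fun x => (w + w').1.1.coeff x) =
            (fun x => w.1.1.coeff x) + (fun x => w'.1.1.coeff x) := rfl
        rw [h1, ex_add hi, hb.add _ _ (ex_class hi hn w.2) (ex_class hi hn w'.2)]
      map_smul' := fun c w => by
        have h1 : (fun x => (c • w).1.1.coeff x) = c • (fun x => w.1.1.coeff x) := rfl
        rw [h1, ex_smul hi, hb.smul _ _ (ex_class hi hn w.2)]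
        rfl }
    (by
      change b (ex i (fun x => (1 : MonoidAlgebra F G).coeff x)) = 1
      rw [← ofF_one]
      change b (ex i (Pi.single 1 1)) = 1
      rw [ex_one hi, hb.one])
    (by
      intro w w'
      change b (ex i (fun x => (w.1.1 * w'.1.1).coeff x)) = _
      rw [coeff_mul_eq, ex_conv hi, hb.mul _ _ (ex_class hi hn w.2) (ex_class hi hn w'.2)]
      rfl)

end

theorem EXT : S_EXT := by
  intro F _ _ G K _ _ _ _ i hi hn b hb
  have hfin : Module.Finite F (Subalgebra.center F (MonoidAlgebra F G)) := by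
    have h1 : Module.Finite F (MonoidAlgebra F G) := inferInstance
    exact FiniteDimensional.finiteDimensional_submodule
      (Subalgebra.toSubmodule (Subalgebra.center F (MonoidAlgebra F G)))
  obtain ⟨φ, hφ⟩ := extend_hom (AA hi hn) (ll hi hn hb)
  refine ⟨toB φ, toB_block φ, fun z hz hz0 => ?_⟩
  have hinv : Inv i (fun x => z (i x)) := by
    intro k x y hxy
    change z (i y) = z (i x)
    rw [hxy]
    exact hz k (i x)
  have hcl : IsClassFun (fun x => z (i x)) := inv_class hinv
  have h1 := hφ ⟨ofC (fun x => z (i x)) hcl, hinv⟩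
  unfold toB
  rw [dif_pos hcl]
  rw [show φ (ofC (fun x => z (i x)) hcl) = _ from h1]
  change b (ex i (fun x => z (i x))) = b z
  congr 1
  funext x
  by_cases hx : x ∈ i.range
  · obtain ⟨y, rfl⟩ := hx
    rw [ex_apply hi]
  · rw [ex_out _ hx, hz0 x hx]

end Pool.Agent.N27.EW
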