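import Mathlib
import Pool.Agent.N208.BT.Stm5

/-!
# BG/PA: two projections are independent or linked, arbitrary signatures

After `Pool/Agent/N136/BTPA.lean` and `Pool/Agent/N73/BTbase.lean`.
-/

set_option autoImplicit false

noncomputable section

namespace Pool.Agent.N27.BGPA

open Matrix
open Pool.Agent.N208.BT

variable {N N' : ℕ} {sg : Fin N → ℝ} {sg' : Fin N' → ℝ}

/-! ### the hermitian form -/

theorem hs_add_left (x y z : VN N) : hs sg (x + y) z = hs sg x z + hs sg y z := by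
  unfold hs
  rw [← Finset.sum_add_distrib]
  exact Finset.sum_congr rfl fun i _ => by rw [Pi.add_apply]; ring

theorem hs_smul_left (c : ℂ) (x y : VN N) : hs sg (c • x) y = c * hs sg x y := by
  unfold hs
  rw [Finset.mul_sum]
  exact Finset.sum_congr rfl fun i _ => by rw [Pi.smul_apply, smul_eq_mul]; ring

theorem hs_conj (x y : VN N) : hs sg y x = star (hs sg x y) := by
  unfold hs
  rw [star_sum]
  refine Finset.sum_congr rfl fun i _ => ?_
  have h : star (sg i : ℂ) = (sg i : ℂ) := Complex.conj_ofReal _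
  rw [star_mul', star_mul', star_star, h]
  ring

theorem hs_smul_right (c : ℂ) (x y : VN N) : hs sg x (c • y) = star c * hs sg x y := by
  rw [hs_conj, hs_smul_left, star_mul', ← hs_conj]

theorem hs_zero_left (y : VN N) : hs sg 0 y = 0 := by
  have := hs_smul_left (sg := sg) 0 (0 : VN N) y
  simpa using this

theorem hs_add_right (x y z : VN N) : hs sg x (y + z) = hs sg x y + hs sg x z := by
  rw [hs_conj, hs_add_left, star_add, ← hs_conj, ← hs_conj]

theorem mat_ext {A B : MN N} (h : ∀ x, A *ᵥ x = B *ᵥ x) : A = B := by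
  apply Matrix.toLin'.injective
  ext1 x
  apply LinearMap.ext
  intro y
  simp only [LinearMap.comp_apply, Matrix.toLin'_apply]
  exact h _

/-- `hs` as a linear form -/
def hsL (sg : Fin N → ℝ) (b : VN N) : VN N →ₗ[ℂ] ℂ where
  toFun x := hs sg x b
  map_add' x y := hs_add_left x y b
  map_smul' c x := hs_smul_left c x b

theorem Rs_apply (a b x : VN N) : Rs sg a b *ᵥ x = hs sg x b • a := by
  have h := LinearMap.pi_apply_eq_sum_univ (hsL sg b) x
  funext i
  have h2 : (Rs sg a b *ᵥ x) i = ∑ j, Rs sg a b i j * x j := rfl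
  have h3 : hs sg x b = ∑ j, x j * hs sg (Pi.single j 1) b := by
    have h4 : hsL sg b x = hs sg x b := rfl
    rw [← h4, h]
    refine Finset.sum_congr rfl fun j _ => ?_
    rw [smul_eq_mul]
    congr 1
    have e : (fun k => if j = k then (1 : ℂ) else 0) = (Pi.single j 1 : VN N) := by
      funext k
      rw [Pi.single_apply]
      by_cases hjk : j = k
      · rw [if_pos hjk, if_pos hjk.symm]
      · rw [if_neg hjk, if_neg (fun h => hjk h.symm)]
    rw [e]
    rfl
  rw [h2, Pi.smul_apply, smul_eq_mul, h3, Finset.sum_mul]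
  refine Finset.sum_congr rfl fun j _ => ?_
  unfold Rs
  rw [Matrix.of_apply]
  ring

theorem Rs_smul_left (c : ℂ) (a b : VN N) : Rs sg (c • a) b = c • Rs sg a b := by
  apply mat_ext
  intro x
  rw [Matrix.smul_mulVec, Rs_apply, Rs_apply, smul_comm]

theorem Rs_smul_right (c : ℂ) (a b : VN N) : Rs sg a (c • b) = star c • Rs sg a b := by
  apply mat_ext
  intro x
  rw [Matrix.smul_mulVec, Rs_apply, Rs_apply, hs_smul_right, mul_smul]

/-- the commutator -/
def br (X Y : MN N) : MN N := X * Y - Y * X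

theorem br_smul (c : ℂ) (X Y : MN N) : br X (c • Y) = c • br X Y := by
  unfold br
  rw [mul_smul_comm, smul_mul_assoc, smul_sub]

theorem br_R {X : MN N} (hX : IsSks sg X) (a b : VN N) :
    br X (Rs sg a b) = Rs sg (X *ᵥ a) b + Rs sg a (X *ᵥ b) := by
  apply mat_ext
  intro x
  unfold br
  rw [Matrix.sub_mulVec, Matrix.add_mulVec, ← Matrix.mulVec_mulVec, ← Matrix.mulVec_mulVec,
    Rs_apply, Rs_apply, Rs_apply, Rs_apply, Matrix.mulVec_smul]
  have h := hX x b
  have h2 : hs sg (X *ᵥ x) b = - hs sg x (X *ᵥ b) := by linear_combination h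
  rw [h2, neg_smul, sub_neg_eq_add]

theorem br_zero (X : MN N) : br X 0 = 0 := by
  unfold br
  rw [mul_zero, zero_mul, sub_zero]

/-! ### entrywise conjugation -/

theorem hs_star (x y : VN N) : hs sg (star x) (star y) = star (hs sg x y) := by
  unfold hs
  rw [star_sum]
  refine Finset.sum_congr rfl fun i _ => ?_
  rw [star_mul', star_mul', Pi.star_apply, Pi.star_apply]
  congr 2
  rw [Complex.star_def, Complex.conj_ofReal]

theorem map_mulVec (Y : MN N) (x : VN N) : (Y.map star) *ᵥ (star x) = star (Y *ᵥ x) := by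
  funext i
  simp only [Matrix.mulVec, dotProduct, Matrix.map_apply, Pi.star_apply, star_sum, star_mul']

theorem map_map (Y : MN N) : (Y.map star).map star = Y := by
  ext i j
  simp only [Matrix.map_apply, star_star]

theorem Rs_map (a b : VN N) : (Rs sg a b).map star = Rs sg (star a) (star b) := by
  have h : ∀ x : VN N, ((Rs sg a b).map star) *ᵥ (star x) =
      Rs sg (star a) (star b) *ᵥ (star x) := by
    intro x
    rw [map_mulVec, Rs_apply, Rs_apply, star_smul, hs_star]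
  apply mat_ext
  intro x
  have := h (star x)
  rwa [star_star] at this

theorem map_mul' {p q r : Type} [Fintype q] (A : Matrix p q ℂ) (B : Matrix q r ℂ) :
    (A * B).map star = A.map star * B.map star := by
  ext i j
  simp only [Matrix.map_apply, Matrix.mul_apply, star_sum, star_mul']

theorem map_smul' (c : ℂ) (A : MN N) : (c • A).map star = star c • A.map star := by
  ext i j
  simp only [Matrix.map_apply, Matrix.smul_apply, smul_eq_mul, star_mul']

theorem map_sub' (A B : MN N) : (A - B).map star = A.map star - B.map star := by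
  ext i j
  simp only [Matrix.map_apply, Matrix.sub_apply, star_sub]

theorem map_zero' : (0 : MN N).map star = 0 := by
  ext i j
  simp only [Matrix.map_apply, Matrix.zero_apply, star_zero]

theorem skew_map {Y : MN N} (h : IsSks sg (Y.map star)) : IsSks sg Y := by
  intro x y
  have h1 := h (star x) (star y)
  rw [map_mulVec, map_mulVec, hs_star, hs_star, ← star_add] at h1
  exact star_eq_zero.1 h1

theorem trace_map (Y : MN N) : (Y.map star).trace = star Y.trace := by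
  simp only [Matrix.trace, Matrix.diag_apply, Matrix.map_apply, star_sum]

theorem brp {𝔟 : Submodule ℝ (MN N × MN N')} (h : PRs sg sg' 𝔟) {X X' : MN N} {Y Y' : MN N'}
    (h1 : (X, Y) ∈ 𝔟) (h2 : (X', Y') ∈ 𝔟) : (br X X', br Y Y') ∈ 𝔟 := by
  have h3 := h.br _ h1 _ h2
  rw [Prod.mk_mul_mk, Prod.mk_mul_mk, Prod.mk_sub_mk] at h3
  exact h3

/-- the conjugation of the second component -/
def cj (N N' : ℕ) : (MN N × MN N') →ₗ[ℝ] (MN N × MN N') where
  toFun p := (p.1, p.2.map star)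
  map_add' p q := by
    refine Prod.ext rfl ?_
    ext i j
    simp only [Prod.snd_add, Matrix.map_apply, Matrix.add_apply, star_add]
  map_smul' c p := by
    refine Prod.ext rfl ?_
    ext i j
    simp only [Prod.smul_snd, Matrix.map_apply, Matrix.smul_apply, RingHom.id_apply]
    simp

theorem mem_cj {𝔟 : Submodule ℝ (MN N × MN N')} {p : MN N × MN N'} :
    p ∈ 𝔟.comap (cj N N') ↔ (p.1, p.2.map star) ∈ 𝔟 := Iff.rfl

theorem br_map (X Y : MN N) : (br X Y).map star = br (X.map star) (Y.map star) := by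
  unfold br
  rw [map_sub', map_mul', map_mul']

theorem prcj {𝔟 : Submodule ℝ (MN N × MN N')} (h : PRs sg sg' 𝔟) :
    PRs sg sg' (𝔟.comap (cj N N')) where
  br := fun p hp q hq => by
    obtain ⟨p1, p2⟩ := p
    obtain ⟨q1, q2⟩ := q
    rw [mem_cj] at hp hq
    rw [Prod.mk_mul_mk, Prod.mk_mul_mk, Prod.mk_sub_mk, mem_cj]
    have h1 := brp h hp hq
    rw [← br_map] at h1
    exact h1
  sk1 := fun p hp => h.sk1 (p.1, p.2.map star) (mem_cj.1 hp)
  sk2 := fun p hp => skew_map (h.sk2 (p.1, p.2.map star) (mem_cj.1 hp))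
  tr1 := fun p hp => h.tr1 (p.1, p.2.map star) (mem_cj.1 hp)
  tr2 := fun p hp => by
    have h1 : (p.2.map star).trace = 0 := h.tr2 (p.1, p.2.map star) (mem_cj.1 hp)
    rw [trace_map] at h1
    exact star_eq_zero.1 h1
  all1 := fun x hx => by
    obtain ⟨Y, hY⟩ := h.all1 x hx
    refine ⟨Y.map star, ?_⟩
    rw [mem_cj, map_map]
    exact hY
  all2 := fun y hy => by
    have h1 : hs sg' (star y) (star y) = 0 := by rw [hs_star, hy, star_zero]
    obtain ⟨X, hX⟩ := h.all2 (star y) h1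
    refine ⟨-X, ?_⟩
    rw [mem_cj, map_smul', Rs_map]
    have h2 := 𝔟.neg_mem hX
    rw [Prod.neg_mk] at h2
    have e : star Complex.I • Rs sg' (star y) (star y) =
        -(Complex.I • Rs sg' (star y) (star y)) := by
      rw [Complex.star_def, Complex.conj_I, neg_smul]
    show (-X, star Complex.I • Rs sg' (star y) (star y)) ∈ 𝔟
    rw [e]
    exact h2

/-! ### a hyperbolic pair -/

theorem hs_single (i : Fin N) (c : ℂ) (y : VN N) :
    hs sg (Pi.single i c) y = (sg i : ℂ) * c * star (y i) := by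
  unfold hs
  rw [Finset.sum_eq_single i]
  · rw [Pi.single_eq_same]
  · intro j _ hj
    rw [Pi.single_eq_of_ne hj, mul_zero, zero_mul]
  · intro h
    exact absurd (Finset.mem_univ i) h

theorem pair_ex (hm : Mixed sg) : ∃ u v : VN N, hs sg u u = 0 ∧ hs sg v v = 0 ∧ hs sg u v = 1 := by
  obtain ⟨⟨a, ha⟩, ⟨b, hb⟩⟩ := hm
  have hab : a ≠ b := by
    rintro rfl
    rw [ha] at hb
    norm_num at hb
  have key : ∀ c c' e e' : ℂ, hs sg (Pi.single a c + Pi.single b e)
      (Pi.single a c' + Pi.single b e') = c * star c' - e * star e' := by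
    intro c c' e e'
    rw [hs_add_left, hs_single, hs_single, Pi.add_apply, Pi.add_apply, Pi.single_eq_same,
      Pi.single_eq_same, Pi.single_eq_of_ne hab, Pi.single_eq_of_ne hab.symm, ha, hb]
    push_cast
    rw [add_zero, zero_add]
    ring
  refine ⟨Pi.single a 1 + Pi.single b 1, Pi.single a (1 / 2) + Pi.single b (-(1 / 2)), ?_, ?_, ?_⟩
  · rw [key]
    ring
  · rw [key]
    simp
  · rw [key]
    simp
    norm_num

theorem Rs_ne {u v : VN N} (h : hs sg u v = 1) : Rs sg u u ≠ 0 := by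
  intro h0
  have h1 : Rs sg u u *ᵥ v = 0 := by rw [h0, Matrix.zero_mulVec]
  rw [Rs_apply, hs_conj, h, star_one, one_smul] at h1
  rw [h1, hs_zero_left] at h
  exact zero_ne_one h

theorem iRs_ne {u v : VN N} (h : hs sg u v = 1) : Complex.I • Rs sg u u ≠ 0 :=
  smul_ne_zero Complex.I_ne_zero (Rs_ne h)

theorem Rs_mul (a b c d : VN N) : Rs sg a b * Rs sg c d = hs sg c b • Rs sg a d := by
  apply mat_ext
  intro x
  rw [← Matrix.mulVec_mulVec, Rs_apply, Rs_apply, Matrix.smul_mulVec, Rs_apply, hs_smul_left,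
    smul_smul, mul_comm]

/-- the bracket of two operators `i Rs(x, x)` -/
theorem br_RR (u v : VN N) (s s' : ℂ) :
    br ((s' * Complex.I) • Rs sg v v) ((s * Complex.I) • Rs sg u u) =
      (s * s') • (hs sg v u • Rs sg u v - hs sg u v • Rs sg v u) := by
  unfold br
  rw [smul_mul_smul_comm, smul_mul_smul_comm, Rs_mul, Rs_mul, smul_sub, smul_smul, smul_smul,
    smul_smul, smul_smul]
  have e1 : s' * Complex.I * (s * Complex.I) = -(s * s') := by
    linear_combination s * s' * Complex.I_mul_I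
  have e2 : s * Complex.I * (s' * Complex.I) = -(s * s') := by
    linear_combination s * s' * Complex.I_mul_I
  rw [e1, e2]
  module

theorem mem_inl {𝔟 : Submodule ℝ (MN N × MN N')} {X : MN N} :
    X ∈ 𝔟.comap (LinearMap.inl ℝ (MN N) (MN N')) ↔ (X, (0 : MN N')) ∈ 𝔟 := Iff.rfl

theorem mem_inr {𝔟 : Submodule ℝ (MN N × MN N')} {Y : MN N'} :
    Y ∈ 𝔟.comap (LinearMap.inr ℝ (MN N) (MN N')) ↔ ((0 : MN N), Y) ∈ 𝔟 := Iff.rfl

/-- the bracket of `H'` with `i Rs(u, u)` -/
theorem br_H {u v : VN N} (s s' : ℝ) (hu : hs sg u u = 0)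
    (hsk : IsSks sg
      (br (((s' : ℂ) * Complex.I) • Rs sg v v) (((s : ℂ) * Complex.I) • Rs sg u u))) :
    br (br (((s' : ℂ) * Complex.I) • Rs sg v v) (((s : ℂ) * Complex.I) • Rs sg u u))
      (((s : ℂ) * Complex.I) • Rs sg u u) =
      (2 * ((s * s' * ‖hs sg u v‖ ^ 2 : ℝ) : ℂ)) • (((s : ℂ) * Complex.I) • Rs sg u u) := by
  obtain ⟨c, hc⟩ : ∃ c, c = hs sg u v := ⟨_, rfl⟩
  have hc' : hs sg v u = star c := by rw [hc]; exact hs_conj u v
  obtain ⟨H, hH⟩ : ∃ H,
    H = br (((s' : ℂ) * Complex.I) • Rs sg v v) (((s : ℂ) * Complex.I) • Rs sg u u) := ⟨_, rfl⟩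
  rw [← hH] at hsk
  rw [← hH]
  have hcc : star c * c = ((‖c‖ ^ 2 : ℝ) : ℂ) := by
    rw [Complex.star_def, ← Complex.normSq_eq_conj_mul_self, Complex.normSq_eq_norm_sq]
  have hHu : H *ᵥ u = ((s * s' * ‖c‖ ^ 2 : ℝ) : ℂ) • u := by
    rw [hH, br_RR, hc', ← hc, Matrix.smul_mulVec, Matrix.sub_mulVec, Matrix.smul_mulVec,
      Matrix.smul_mulVec, Rs_apply, Rs_apply, hu, zero_smul, smul_zero, sub_zero, ← hc, smul_smul,
      smul_smul, mul_assoc, hcc]
    congr 1
    push_cast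
    ring
  rw [br_smul, br_R hsk, hHu, Rs_smul_left, Rs_smul_right, Complex.star_def, Complex.conj_ofReal,
    ← hc, ← two_smul ℂ, smul_smul, smul_smul, smul_smul]
  congr 1
  ring

theorem sgn {s s' x : ℝ} (hs : s = 1 ∨ s = -1) (hs' : s' = 1 ∨ s' = -1) (hx : 0 ≤ x)
    (h : s * s' * x = 1) : s' = s ∧ x = 1 := by
  rcases hs with rfl | rfl <;> rcases hs' with rfl | rfl <;> constructor <;> nlinarith

theorem sk1' {𝔟 : Submodule ℝ (MN N × MN N')} (h : PRs sg sg' 𝔟) {X : MN N} {Y : MN N'}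
    (hp : (X, Y) ∈ 𝔟) : IsSks sg X := h.sk1 (X, Y) hp

theorem sk2' {𝔟 : Submodule ℝ (MN N × MN N')} (h : PRs sg sg' 𝔟) {X : MN N} {Y : MN N'}
    (hp : (X, Y) ∈ 𝔟) : IsSks sg' Y := h.sk2 (X, Y) hp

theorem tr1' {𝔟 : Submodule ℝ (MN N × MN N')} (h : PRs sg sg' 𝔟) {X : MN N} {Y : MN N'}
    (hp : (X, Y) ∈ 𝔟) : X.trace = 0 := h.tr1 (X, Y) hp

theorem tr2' {𝔟 : Submodule ℝ (MN N × MN N')} (h : PRs sg sg' 𝔟) {X : MN N} {Y : MN N'}
    (hp : (X, Y) ∈ 𝔟) : Y.trace = 0 := h.tr2 (X, Y) hp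

theorem main_lem {𝔟 : Submodule ℝ (MN N × MN N')} (i1 : IsSg sg) (m1 : Mixed sg) (i2 : IsSg sg')
    (m2 : Mixed sg') (h : PRs sg sg' 𝔟) (hP1 : G_P1)
    (h1 : ∀ X : MN N, (X, 0) ∈ 𝔟 → X = 0) (h2 : ∀ Y : MN N', (0, Y) ∈ 𝔟 → Y = 0)
    {u v : VN N} (huu : hs sg u u = 0) (hvv : hs sg v v = 0) (huv : hs sg u v = 1) :
    ∃ (s : ℝ) (u' v' : VN N'), (s = 1 ∨ s = -1) ∧ hs sg' u' u' = 0 ∧ hs sg' v' v' = 0 ∧
      hs sg' u' v' = 1 ∧
      (Complex.I • Rs sg u u, ((s : ℂ) * Complex.I) • Rs sg' u' u') ∈ 𝔟 ∧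
      (Complex.I • Rs sg v v, ((s : ℂ) * Complex.I) • Rs sg' v' v') ∈ 𝔟 := by
  obtain ⟨Yu, hYu⟩ := h.all1 u huu
  obtain ⟨Yv, hYv⟩ := h.all1 v hvv
  have hvu : hs sg v u = 1 := by rw [hs_conj, huv, star_one]
  obtain ⟨s, u₁, hs1, hu₁0, hu₁, eu⟩ :=
    hP1 N N' sg sg' i1 m1 i2 m2 𝔟 h h1 h2 u v huu hvv huv Yu hYu
  obtain ⟨s', v₁, hs', hv₁0, hv₁, ev⟩ :=
    hP1 N N' sg sg' i1 m1 i2 m2 𝔟 h h1 h2 v u hvv huu hvu Yv hYv
  have hYu0 : Yu ≠ 0 := by
    intro h3
    rw [h3] at hYu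
    exact iRs_ne huv (h1 _ hYu)
  -- the bracket
  have hH := brp h hYv hYu
  have hE := brp h hH hYu
  have hH's := sk2' h hH
  have hHs := sk1' h hH
  have hE1 : br (br (Complex.I • Rs sg v v) (Complex.I • Rs sg u u)) (Complex.I • Rs sg u u) =
      (2 : ℝ) • (Complex.I • Rs sg u u) := by
    have h3 := br_H (sg := sg) (u := u) (v := v) 1 1 huu (by
      rw [Complex.ofReal_one, one_mul]
      exact hHs)
    rw [Complex.ofReal_one, one_mul, huv] at h3
    rw [h3, norm_one]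
    have e : (2 * (((1 : ℝ) * 1 * 1 ^ 2 : ℝ) : ℂ)) = ((2 : ℝ) : ℂ) := by
      push_cast
      ring
    rw [e, Complex.coe_smul]
  have hE2 : br (br Yv Yu) Yu = (2 : ℝ) • Yu := by
    have h4 := 𝔟.sub_mem hE (𝔟.smul_mem (2 : ℝ) hYu)
    rw [Prod.smul_mk, Prod.mk_sub_mk, hE1, sub_self] at h4
    exact sub_eq_zero.1 (h2 _ h4)
  have hkey : s * s' * ‖hs sg' u₁ v₁‖ ^ 2 = 1 := by
    rw [eu, ev] at hH's
    have h3 := br_H s s' hu₁ hH's
    rw [← eu, ← ev, hE2] at h3
    have e : (2 * ((s * s' * ‖hs sg' u₁ v₁‖ ^ 2 : ℝ) : ℂ)) =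
        ((2 * (s * s' * ‖hs sg' u₁ v₁‖ ^ 2) : ℝ) : ℂ) := by
      push_cast
      ring
    rw [e, Complex.coe_smul] at h3
    have h4 := smul_left_injective ℝ hYu0 h3
    linarith
  obtain ⟨hss, hn⟩ := sgn hs1 hs' (by positivity) hkey
  obtain ⟨c, hc⟩ : ∃ c, c = hs sg' u₁ v₁ := ⟨_, rfl⟩
  have hcc1 : star c * c = 1 := by
    rw [Complex.star_def, ← Complex.normSq_eq_conj_mul_self, Complex.normSq_eq_norm_sq, hc, hn,
      Complex.ofReal_one]
  refine ⟨s, u₁, c • v₁, hs1, hu₁, ?_, ?_, ?_, ?_⟩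
  · rw [hs_smul_left, hs_smul_right, hv₁, mul_zero, mul_zero]
  · rw [hs_smul_right, ← hc, hcc1]
  · rw [← eu]
    exact hYu
  · have e : Rs sg' (c • v₁) (c • v₁) = Rs sg' v₁ v₁ := by
      rw [Rs_smul_left, Rs_smul_right, smul_smul, mul_comm, hcc1, one_smul]
    rw [e, ← hss, ← ev]
    exact hYv

theorem mapR {S : Matrix (Fin N') (Fin N) ℂ} (h : S.map star = 0) : S = 0 := by
  ext i j
  have h3 := congrFun (congrFun h i) j
  exact star_eq_zero.1 h3

/-- a link of the conjugate is a link -/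
theorem linked_cj {𝔟 : Submodule ℝ (MN N × MN N')} (h : Linked (𝔟.comap (cj N N'))) :
    Linked 𝔟 := by
  have key : ∀ p ∈ 𝔟, (p.1, p.2.map star) ∈ 𝔟.comap (cj N N') := by
    intro p hp
    rw [mem_cj, map_map]
    exact hp
  rcases h with ⟨S, hS0, hS⟩ | ⟨S, hS0, hS⟩
  · right
    refine ⟨S.map star, fun h0 => hS0 (mapR h0), fun p hp => ?_⟩
    have h4 : p.2.map star * S = S * p.1 := hS _ (key p hp)
    have h5 := congrArg (fun A => Matrix.map A star) h4
    beta_reduce at h5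
    rw [map_mul', map_mul', map_map] at h5
    exact h5
  · left
    refine ⟨S.map star, fun h0 => hS0 (mapR h0), fun p hp => ?_⟩
    have h4 : p.2.map star * S = S * p.1.map star := hS _ (key p hp)
    have h5 := congrArg (fun A => Matrix.map A star) h4
    beta_reduce at h5
    rw [map_mul', map_mul', map_map, map_map] at h5
    exact h5

/-- **BG/PA** -/
theorem main : G_SU → G_PI → G_P1 → G_P2 → Pool.Agent.N208.BT.G_PA := by
  intro hSU hPI hP1 hP2 N N' sg sg' i1 m1 i2 m2 𝔟 h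
  by_cases h1 : ∃ X : MN N, (X, (0 : MN N')) ∈ 𝔟 ∧ X ≠ 0
  · left
    obtain ⟨X₀, hX₀, hX₀0⟩ := h1
    refine hPI N sg i1 m1 (𝔟.comap (LinearMap.inl ℝ (MN N) (MN N'))) (fun X hX => ?_)
      (fun x hx Y hY => ?_) ⟨X₀, mem_inl.2 hX₀, hX₀0⟩
    · exact ⟨sk1' h (mem_inl.1 hX), tr1' h (mem_inl.1 hX)⟩
    · obtain ⟨Z, hZ⟩ := h.all1 x hx
      have h3 := brp h hZ (mem_inl.1 hY)
      rw [br_zero] at h3
      exact mem_inl.2 h3
  push Not at h1
  obtain ⟨u, v, huu, hvv, huv⟩ := pair_ex m1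
  have h2 : ∀ Y : MN N', ((0 : MN N), Y) ∈ 𝔟 → Y = 0 := by
    by_contra hcon
    push Not at hcon
    obtain ⟨Y₀, hY₀, hY₀0⟩ := hcon
    have h3 := hPI N' sg' i2 m2 (𝔟.comap (LinearMap.inr ℝ (MN N) (MN N')))
      (fun X hX => ⟨sk2' h (mem_inr.1 hX), tr2' h (mem_inr.1 hX)⟩) (fun y hy Y hY => by
        obtain ⟨Z, hZ⟩ := h.all2 y hy
        have h3 := brp h hZ (mem_inr.1 hY)
        rw [br_zero] at h3
        exact mem_inr.2 h3) ⟨Y₀, mem_inr.2 hY₀, hY₀0⟩
    obtain ⟨Yu, hYu⟩ := h.all1 u huu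
    have h4 : Yu ∈ 𝔟.comap (LinearMap.inr ℝ (MN N) (MN N')) := by
      refine (Submodule.span_le.2 ?_) (hSU N' sg' i2 m2 Yu (sk2' h hYu) (tr2' h hYu))
      rintro _ ⟨x, hx, rfl⟩
      exact h3 x hx
    have h5 : ((0 : MN N), Yu) ∈ 𝔟 := mem_inr.1 h4
    have h6 := 𝔟.sub_mem hYu h5
    rw [Prod.mk_sub_mk, sub_zero, sub_self] at h6
    exact iRs_ne huv (h1 _ h6)
  obtain ⟨s, u', v', hs1, hu', hv', hu'v', hmu, hmv⟩ :=
    main_lem i1 m1 i2 m2 h hP1 h1 h2 huu hvv huv
  right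
  rcases hs1 with rfl | rfl
  · rw [Complex.ofReal_one, one_mul] at hmu hmv
    exact hP2 N N' sg sg' i1 m1 i2 m2 𝔟 h h1 h2 u v u' v' huu hvv huv hu' hv' hu'v' hmu hmv
  · have e : ∀ w : VN N', (Complex.I • Rs sg' (star w) (star w)).map star =
        (((-1 : ℝ) : ℂ) * Complex.I) • Rs sg' w w := by
      intro w
      rw [map_smul', Rs_map, star_star]
      congr 1
      simp
    refine linked_cj (hP2 N N' sg sg' i1 m1 i2 m2 (𝔟.comap (cj N N')) (prcj h)
      (fun X hX => h1 X (by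
        have h3 : (X, (0 : MN N').map star) ∈ 𝔟 := mem_cj.1 hX
        rwa [map_zero'] at h3))
      (fun Y hY => by
        have h3 : ((0 : MN N), Y.map star) ∈ 𝔟 := mem_cj.1 hY
        have h4 := h2 _ h3
        rw [← map_map Y, h4, map_zero'])
      u v (star u') (star v') huu hvv huv (by rw [hs_star, hu', star_zero])
      (by rw [hs_star, hv', star_zero]) (by rw [hs_star, hu'v', star_one])
      (by
        rw [mem_cj, e]
        exact hmu)
      (by
        rw [mem_cj, e]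
        exact hmv))

end Pool.Agent.N27.BGPA
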