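import Pool.Agent.N848.AW.Stm
import Pool.Agent.R426.QD.Tr
import Pool.Agent.R426.QK.Sym

/-!
# Project AW, part SUP (helper27): the supplementary laws
-/

set_option autoImplicit false

namespace Pool.Agent.N27.AW

open Pool.Agent.N848.AW
open Pool.Agent.R426.QK
open Pool.Agent.R426.QC
open Pool.Agent.R426.QD (r4 r4_eq r4_a Pn P3 recG tp et tp_pm lg_neg' sy_aO sy_bO)
open Pool.Agent.Y698 Pool.Agent.Y698.SG
open H667R3 Pool.Agent.W192.HK Pool.Agent.TH936.CM Pool.Agent.TH936.PU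
open Pool.Agent.Y279.SG (sy_eq red cXY_cj nR_dvd qch_eq dvd_coord)

lemma r8_eq (x : RR) : r8 x = ((cX x + 6 * cY x : ℤ) : ZMod 8) := by
  have h : r8 x = (cX x : ZMod 8) + (cY x : ZMod 8) * 6 := rfl
  rw [h]
  push_cast
  ring

/-- the coordinates of a primary prime: `X = 1 mod 4`, `Y = 2 D`, and `D` is odd iff the type is `1` -/
lemma coords {π : RR} (h : Pq π) : ∃ D : ℤ, cY π = 2 * D ∧ cX π % 4 = 1 ∧
    ((D % 2 = 0 ∧ tp π = 0) ∨ (D % 2 = 1 ∧ tp π = 1)) := by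
  rcases h.pn.cases with h1 | ⟨p, A, B, h1, h2⟩
  · obtain ⟨u, hu⟩ := h1.m4
    have hX : cX π = 1 + 4 * cX u := by
      rw [hu, (cXY_add _ _).1, (cXY_mul _ _).1]
      have e4 : (4 : RR) = ((4 : ℤ) : RR) := by norm_num
      rw [e4, (cXY_int _).1, (cXY_int _).2, cXY_one.1]
      ring
    have hY : cY π = 4 * cY u := by
      rw [hu, (cXY_add _ _).2, (cXY_mul _ _).2]
      have e4 : (4 : RR) = ((4 : ℤ) : RR) := by norm_num
      rw [e4, (cXY_int _).1, (cXY_int _).2, cXY_one.2]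
      ring
    exact ⟨2 * cY u, by rw [hY]; ring, by omega, Or.inl ⟨by omega, tp_pm h1⟩⟩
  · exact ⟨B, h1.hY, by rw [h1.hX]; exact h2, Or.inr ⟨h1.hB, h1.tp⟩⟩

lemma cast8 (x : ℤ) (k : ZMod 8) (n : ℤ) (hn : (n : ZMod 8) = k) :
    (x : ZMod 8) = k ↔ x % 8 = n % 8 := by
  rw [← hn, ZMod.intCast_eq_intCast_iff]
  rfl

lemma chi_1 {x : ℤ} (h : x % 8 = 1 ∨ x % 8 = 7) : lg (((ZMod.χ₈ (x : ZMod 8) : ℤ) : ℂ)) = 0 := by
  have h1 : ZMod.χ₈ (x : ZMod 8) = 1 := by
    rw [ZMod.χ₈_int_eq_if_mod_eight, if_neg (by omega), if_pos h]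
  rw [h1, Int.cast_one, lg_one]

lemma chi_3 {x : ℤ} (h : x % 8 = 3 ∨ x % 8 = 5) : lg (((ZMod.χ₈ (x : ZMod 8) : ℤ) : ℂ)) = 1 := by
  have h1 : ZMod.χ₈ (x : ZMod 8) = -1 := by
    rw [ZMod.χ₈_int_eq_if_mod_eight, if_neg (by omega), if_neg (by omega)]
  rw [h1, Int.cast_neg, Int.cast_one, lg_neg_one]

/-- **the supplementary laws** -/
theorem t_SUP : S_SUP := by
  intro π h
  have ha : aR ∉ sp π := by
    intro h1
    refine h.od ?_
    rw [Pool.Agent.R426.QK.two_eq]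
    exact (mem_sp.1 h1).mul_right _
  have hb : cj aR ∉ sp π := by
    intro h1
    refine h.od ?_
    rw [Pool.Agent.R426.QK.two_eq]
    exact (mem_sp.1 h1).mul_left _
  obtain ⟨D, hD, hX, hDt⟩ := coords h
  refine ⟨tp_tt h, ?_, ?_⟩
  · show lg (sy π (-aR)) = gg π
    rw [lg_neg' h.prime h.od ha, sy_aO h.prime h.od]
    have hr : r8 π = 1 ↔ (cX π + 12 * D) % 8 = 1 := by
      rw [r8_eq, hD]
      have e : cX π + 6 * (2 * D) = cX π + 12 * D := by ring
      rw [e, cast8 _ 1 1 (by norm_num)]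
      norm_num
    unfold gg
    rcases hDt with ⟨h1, h2⟩ | ⟨h1, h2⟩
    · rw [h2, zero_add]
      by_cases h3 : cX π % 8 = 1
      · rw [chi_1 (Or.inl h3), if_pos (hr.2 (by omega))]
      · rw [chi_3 (Or.inr (by omega)), if_neg (fun h4 => h3 (by have := hr.1 h4; omega))]
    · rw [h2]
      by_cases h3 : cX π % 8 = 1
      · rw [chi_1 (Or.inl h3), if_neg (fun h4 => by have := hr.1 h4; omega), add_zero]
      · rw [chi_3 (Or.inr (by omega)), if_pos (hr.2 (by omega))]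
        decide
  · show lg (sy π (-cj aR)) = hh π
    rw [lg_neg' h.prime h.od hb, sy_bO h.prime h.od, (cXY_cj π).1]
    have hr (n : ℤ) (k : ZMod 8) (hn : (n : ZMod 8) = k) :
        r8 (cj π) = k ↔ (cX π - 10 * D) % 8 = n % 8 := by
      rw [r8_eq, (cXY_cj π).1, (cXY_cj π).2, hD]
      have e : cX π + 2 * D + 6 * -(2 * D) = cX π - 10 * D := by ring
      rw [e, cast8 _ k n hn]
    have hr1 := hr 1 1 (by norm_num)
    have hr7 := hr 7 7 (by norm_num)
    rw [hD]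
    unfold hh
    rcases hDt with ⟨h1, h2⟩ | ⟨h1, h2⟩
    · rw [h2, zero_add]
      by_cases h3 : (cX π + 2 * D) % 8 = 1
      · rw [chi_1 (Or.inl h3), if_pos (Or.inl (hr1.2 (by omega)))]
      · rw [chi_3 (Or.inr (by omega)), if_neg]
        rintro (h4 | h4)
        · have := hr1.1 h4; omega
        · have := hr7.1 h4; omega
    · rw [h2]
      by_cases h3 : (cX π + 2 * D) % 8 = 3
      · rw [chi_3 (Or.inl h3), if_pos (Or.inr (hr7.2 (by omega)))]
        decide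
      · rw [chi_1 (Or.inr (by omega)), if_neg, add_zero]
        rintro (h4 | h4)
        · have := hr1.1 h4; omega
        · have := hr7.1 h4; omega

end Pool.Agent.N27.AW
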