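import Pool.Agent.N988.EA.Stm5

/-!
Project EA (helper988), part CMP (helper27): comparison of tails.
-/

set_option autoImplicit false

open MeasureTheory Set Filter
open scoped ENNReal Topology

namespace Pool.Agent.N27.EA

open Pool.Agent.N988.EA

variable {ν ρ : Measure ℝ} [IsProbabilityMeasure ν] [IsProbabilityMeasure ρ]

theorem up (h : ∀ t : ℝ, 0 ≤ t → ν {x | t < |x|} ≤ ρ {x | t < |x|}) (U : Set ℝ)
    (hU : ∀ x ∈ U, ∀ x', |x| ≤ |x'| → x' ∈ U) : ν U ≤ ρ U := by
  rcases U.eq_empty_or_nonempty with rfl | hne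
  · simp
  obtain ⟨A, hA⟩ : ∃ A : Set ℝ, A = (fun x : ℝ => |x|) '' U := ⟨_, rfl⟩
  have hAne : A.Nonempty := by
    rw [hA]
    exact hne.image _
  have hAbd : BddBelow A := by
    refine ⟨0, ?_⟩
    rw [hA]
    rintro _ ⟨x, -, rfl⟩
    exact abs_nonneg x
  obtain ⟨a, ha⟩ : ∃ a, a = sInf A := ⟨_, rfl⟩
  have ha0 : 0 ≤ a := by
    rw [ha]
    refine le_csInf hAne ?_
    rw [hA]
    rintro _ ⟨x, -, rfl⟩
    exact abs_nonneg x
  have hle : ∀ x ∈ U, a ≤ |x| := by
    intro x hx
    rw [ha]
    refine csInf_le hAbd ?_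
    rw [hA]
    exact ⟨x, hx, rfl⟩
  by_cases haA : a ∈ A
  · have haA' := haA
    rw [hA] at haA'
    obtain ⟨x0, hx0, hx0a⟩ := haA'
    have hUe : U = {x | a ≤ |x|} := by
      ext x
      refine ⟨hle x, fun hx => hU x0 hx0 x ?_⟩
      have h1 : |x0| = a := hx0a
      rw [h1]
      exact hx
    rcases ha0.eq_or_lt with h0 | h0
    · have h1 : U = univ := by
        rw [hUe, ← h0]
        ext x
        simp
      rw [h1, measure_univ, measure_univ]
    · obtain ⟨S, hS⟩ : ∃ S : ℕ → Set ℝ, S = fun n : ℕ => {x | a - a / ((n : ℝ) + 1) < |x|} :=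
        ⟨_, rfl⟩
      have h1 : U = ⋂ n, S n := by
        rw [hUe, hS]
        ext x
        simp only [mem_ofPred_eq, mem_iInter]
        constructor
        · intro hx n
          have : 0 < a / ((n : ℝ) + 1) := by positivity
          linarith
        · intro hx
          by_contra hlt
          rw [not_le] at hlt
          obtain ⟨n, hn⟩ := exists_nat_gt (a / (a - |x|))
          have h2 := hx n
          have h3 : 0 < a - |x| := by linarith
          have h4 : a / ((n : ℝ) + 1) < a - |x| := by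
            rw [div_lt_iff₀ (by positivity)]
            rw [div_lt_iff₀ h3] at hn
            nlinarith
          linarith
      have hanti : Antitone S := by
        intro n m hnm x hx
        rw [hS] at hx ⊢
        simp only [mem_ofPred_eq] at hx ⊢
        have h2 : a / ((m : ℝ) + 1) ≤ a / ((n : ℝ) + 1) := by
          apply div_le_div_of_nonneg_left ha0 (by positivity)
          have : (n : ℝ) ≤ m := by exact_mod_cast hnm
          linarith
        linarith
      have hmeas : ∀ n, MeasurableSet (S n) := by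
        intro n
        rw [hS]
        exact measurableSet_lt measurable_const continuous_abs.measurable
      have h2 : ρ (⋂ n, S n) = ⨅ n, ρ (S n) :=
        hanti.measure_iInter (fun n => (hmeas n).nullMeasurableSet) ⟨0, measure_ne_top _ _⟩
      rw [h1, h2]
      refine le_iInf fun n => ?_
      refine (measure_mono (iInter_subset S n)).trans ?_
      rw [hS]
      refine h _ ?_
      have : a / ((n : ℝ) + 1) ≤ a := by
        apply div_le_self ha0
        have : (0 : ℝ) ≤ n := Nat.cast_nonneg n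
        linarith
      linarith
  · have hUe : U = {x | a < |x|} := by
      ext x
      constructor
      · intro hx
        refine lt_of_le_of_ne (hle x hx) fun h1 => haA ?_
        rw [h1, hA]
        exact ⟨x, hx, rfl⟩
      · intro hx
        have h1 : sInf A < |x| := by
          rw [← ha]
          exact hx
        obtain ⟨b, hb, hbx⟩ := (csInf_lt_iff hAbd hAne).1 h1
        rw [hA] at hb
        obtain ⟨y, hy, rfl⟩ := hb
        exact hU y hy x hbx.le
    rw [hUe]
    exact h a ha0

theorem dom (h : ∀ t : ℝ, 0 ≤ t → ν {x | t < |x|} ≤ ρ {x | t < |x|}) (G : ℝ → ℝ≥0∞)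
    (hG : Measurable G) (h1 : ∀ x, G x ≠ ⊤) (h2 : ∀ x x', |x| ≤ |x'| → G x ≤ G x') :
    ∫⁻ x, G x ∂ν ≤ ∫⁻ x, G x ∂ρ := by
  have hg : Measurable fun x => (G x).toReal := hG.ennreal_toReal
  have e : ∀ μ : Measure ℝ, ∫⁻ x, G x ∂μ = ∫⁻ t in Ioi (0 : ℝ), μ {a | t < (G a).toReal} := by
    intro μ
    rw [← lintegral_eq_lintegral_meas_lt μ (Eventually.of_forall fun x => ENNReal.toReal_nonneg)
      hg.aemeasurable]
    refine lintegral_congr fun x => ?_
    rw [ENNReal.ofReal_toReal (h1 x)]
  rw [e, e]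
  refine lintegral_mono fun t => ?_
  refine up h _ fun x hx x' hxx' => ?_
  have hx1 : t < (G x).toReal := hx
  exact lt_of_lt_of_le hx1 (ENNReal.toReal_mono (h1 x') (h2 x x' hxx'))

theorem tails (hAN : S_AN) (μ : Measure ℝ) [IsProbabilityMeasure μ] (hμ : Uni μ) (t x x' : ℝ)
    (hx : |x| ≤ |x'|) : μ {y | t < |y + x|} ≤ μ {y | t < |y + x'|} := by
  have e : ∀ z : ℝ, μ {y | t < |y + z|} = 1 - μ (Icc (-z - t) (-z + t)) := by
    intro z
    have h1 : {y | t < |y + z|} = (Icc (-z - t) (-z + t))ᶜ := by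
      ext y
      rw [mem_compl_iff, mem_Icc, mem_ofPred_eq, ← not_le, abs_le]
      constructor
      · intro h h'
        exact h ⟨by linarith [h'.1], by linarith [h'.2]⟩
      · intro h h'
        exact h ⟨by linarith [h'.1], by linarith [h'.2]⟩
    rw [h1, prob_compl_eq_one_sub measurableSet_Icc]
  rw [e, e]
  refine tsub_le_tsub_left (hAN μ hμ t (-x) (-x') ?_) _
  rwa [abs_neg, abs_neg]

theorem t_CMP (hAN : S_AN) : S_CMP := by
  intro ν₁ ν₂ ρ₁ ρ₂ i1 i2 i3 i4 hU1 hU2 h1 h2 t _
  have hm : MeasurableSet {p : ℝ × ℝ | t < |p.1 + p.2|} :=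
    measurableSet_lt measurable_const (continuous_abs.measurable.comp
      (measurable_fst.add measurable_snd))
  have hne : ∀ (μ : Measure ℝ) [IsProbabilityMeasure μ] (s : Set ℝ), μ s ≠ ⊤ := fun μ _ s =>
    measure_ne_top μ s
  -- replace the second variable
  have s1 : (ν₁.prod ν₂) {p | t < |p.1 + p.2|} ≤ (ν₁.prod ρ₂) {p | t < |p.1 + p.2|} := by
    rw [Measure.prod_apply_symm hm, Measure.prod_apply_symm hm]
    refine dom h2 (fun y => ν₁ ((fun x => (x, y)) ⁻¹' {p : ℝ × ℝ | t < |p.1 + p.2|}))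
      (measurable_measure_prodMk_right hm) (fun y => hne _ _) fun y y' hy => ?_
    exact tails hAN ν₁ hU1 t y y' hy
  have s2 : (ν₁.prod ρ₂) {p | t < |p.1 + p.2|} ≤ (ρ₁.prod ρ₂) {p | t < |p.1 + p.2|} := by
    rw [Measure.prod_apply hm, Measure.prod_apply hm]
    refine dom h1 (fun x => ρ₂ (Prod.mk x ⁻¹' {p : ℝ × ℝ | t < |p.1 + p.2|}))
      (measurable_measure_prodMk_left hm) (fun y => hne _ _) fun x x' hx => ?_
    have h3 := tails hAN ρ₂ hU2 t x x' hx
    have e : ∀ z : ℝ, (Prod.mk z ⁻¹' {p : ℝ × ℝ | t < |p.1 + p.2|}) = {y | t < |y + z|} := by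
      intro z
      ext y
      simp only [mem_preimage, mem_ofPred_eq]
      rw [add_comm]
    rw [e, e]
    exact h3
  exact s1.trans s2

end Pool.Agent.N27.EA
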