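import Pool.Agent.N906.FH.Stm

set_option autoImplicit false

/-!
# Project FH: counting from the densities and REG2
-/

namespace Pool.Agent.N27.FH

open Finset Pool.Agent.N906.SZ Pool.Agent.N906.FH

theorem rd_pos (n : ℕ) : 0 < rd n := by
  unfold rd
  refine Finset.prod_pos fun p hp => ?_
  exact (Nat.prime_of_mem_primeFactors (Finset.mem_filter.1 hp).1).pos

theorem cnt2 (h1 : S_DENS) (h2 : S_REG2) : S_CNT2 := by
  obtain ⟨C₁, hC₁, hd⟩ := h1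
  obtain ⟨C₂, hC₂, hr⟩ := h2
  refine ⟨C₂ * C₁, by positivity, fun X Y n hX hY hn hM F hF => ?_⟩
  obtain ⟨Q, hQ1, hQ2, hQ3, hQ4⟩ := hd n hn
  have hM1 : 1 ≤ n * rd n := Nat.mul_pos (by omega) (rd_pos n)
  have hMR : (0 : ℝ) < ((n * rd n : ℕ) : ℝ) := by exact_mod_cast hM1
  have h := hr X Y (n * rd n) (C₁ * cc n * (n * rd n : ℕ)) Q hX hY hM1 hM hQ1 hQ2 hQ4 F
    (fun x hx => ⟨(hF x hx).2.1, hQ3 _ _ (hF x hx).1 (hF x hx).2.2⟩)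
  refine h.trans (le_of_eq ?_)
  field_simp

theorem cnt3 (h1 : S_DENS3) (h2 : S_REG2) : S_CNT3 := by
  obtain ⟨C₁, hC₁, hd⟩ := h1
  obtain ⟨C₂, hC₂, hr⟩ := h2
  refine ⟨C₂ * C₁, by positivity, fun X Y n hX hY hn hM F hF => ?_⟩
  obtain ⟨Q, hQ1, hQ2, hQ3, hQ4⟩ := hd n hn
  have hM1 : 1 ≤ n * rd n := Nat.mul_pos (by omega) (rd_pos n)
  have hMR : (0 : ℝ) < ((n * rd n : ℕ) : ℝ) := by exact_mod_cast hM1
  have h := hr X Y (n * rd n) (C₁ * (n * rd n : ℕ)) Q hX hY hM1 hM hQ1 hQ2 hQ4 F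
    (fun x hx => ⟨(hF x hx).2.1, hQ3 _ _ (hF x hx).1 (hF x hx).2.2⟩)
  refine h.trans (le_of_eq ?_)
  field_simp

end Pool.Agent.N27.FH
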