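import Pool.Agent.N804.GM.Stm
import Pool.Agent.H388LH.ZG

/-!
# Project GM (helper804), part 3 (helper27): zeros of zeta against the Poisson mean
-/

set_option autoImplicit false

namespace Pool.Agent.N27.GM3

open Complex Filter Topology Set MeasureTheory
open Pool.Agent.N804.GM

/-! ### The entire function `(s - 1) ζ(s)` -/

/-- the function `(s - 1) ζ(s)` -/
noncomputable def H : ℂ → ℂ := Function.update (fun s => (s - 1) * riemannZeta s) 1 1

theorem H_of_ne {s : ℂ} (hs : s ≠ 1) : H s = (s - 1) * riemannZeta s := by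
  unfold H
  rw [Function.update_of_ne hs]

theorem H_one : H 1 = 1 := by
  unfold H
  rw [Function.update_self]

theorem H_event {s : ℂ} (hs : s ≠ 1) : H =ᶠ[𝓝 s] fun z => (z - 1) * riemannZeta z := by
  filter_upwards [isOpen_ne.mem_nhds hs] with z hz
  exact H_of_ne hz

theorem H_diff {s : ℂ} (hs : s ≠ 1) : DifferentiableAt ℂ H s := by
  have h1 : DifferentiableAt ℂ (fun z => (z - 1) * riemannZeta z) s :=
    (differentiableAt_id.sub_const 1).mul (differentiableAt_riemannZeta hs)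
  exact h1.congr_of_eventuallyEq (H_event hs)

theorem H_an (s : ℂ) : AnalyticAt ℂ H s := by
  by_cases hs : s = 1
  · subst hs
    apply Complex.analyticAt_of_differentiable_on_punctured_nhds_of_continuousAt
    · filter_upwards [self_mem_nhdsWithin] with z hz
      exact H_diff hz
    · unfold H
      rw [continuousAt_update_same]
      exact riemannZeta_residue_one
  · rw [Complex.analyticAt_iff_eventually_differentiableAt]
    filter_upwards [isOpen_ne.mem_nhds hs] with z hz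
    exact H_diff hz

theorem H_le {s : ℂ} (hs : 1 / 2 ≤ s.re) : ‖H s‖ ≤ ‖s‖ + 2 * (‖s‖ * ‖s - 1‖) := by
  by_cases hs1 : s = 1
  · subst hs1
    rw [H_one, norm_one, sub_self, norm_zero]
    norm_num
  · have hs0 : 0 < s.re := by linarith
    have h1 := Pool.Agent.H388LH.fract_int_bound hs0
    have h2 := Pool.Agent.H388LH.zeta_eq hs0 hs1
    have hs1' : s - 1 ≠ 0 := sub_ne_zero.2 hs1
    rw [H_of_ne hs1, h2]
    have h3 : (s - 1) * (1 + 1 / (s - 1) -
          s * ∫ u in Ioi (1 : ℝ), ((Int.fract u : ℝ) : ℂ) * (u : ℂ) ^ (-s - 1)) =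
        s - s * (s - 1) * ∫ u in Ioi (1 : ℝ), ((Int.fract u : ℝ) : ℂ) * (u : ℂ) ^ (-s - 1) := by
      field_simp
      ring
    rw [h3]
    have h4 : 1 / s.re ≤ 2 := by
      rw [div_le_iff₀ hs0]
      linarith
    calc ‖s - s * (s - 1) * ∫ u in Ioi (1 : ℝ), ((Int.fract u : ℝ) : ℂ) * (u : ℂ) ^ (-s - 1)‖
        ≤ ‖s‖ + ‖s * (s - 1) * ∫ u in Ioi (1 : ℝ), ((Int.fract u : ℝ) : ℂ) * (u : ℂ) ^ (-s - 1)‖ :=
          norm_sub_le _ _
      _ ≤ ‖s‖ + ‖s‖ * ‖s - 1‖ * 2 := by
          rw [norm_mul, norm_mul]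
          gcongr
          exact h1.trans h4
      _ = ‖s‖ + 2 * (‖s‖ * ‖s - 1‖) := by ring

/-! ### A lower bound on the line `Re s = 3/2` -/

theorem zeta_low : ∃ c : ℝ, 0 < c ∧ ∀ t : ℝ, c ≤ ‖riemannZeta (3 / 2 + t * I)‖ := by
  set m : ℕ → ℂ := fun n => ((ArithmeticFunction.moebius n : ℤ) : ℂ) with hm
  set M : ℝ := ∑' n, ‖LSeries.term m (3 / 2) n‖ with hM
  have hre : ∀ t : ℝ, (3 / 2 + t * I : ℂ).re = 3 / 2 := by
    intro t
    simp
  have hre0 : (3 / 2 : ℂ).re = 3 / 2 := by norm_num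
  have h1 : ∀ t : ℝ, ‖LSeries m (3 / 2 + t * I)‖ ≤ M := by
    intro t
    have h2 : LSeriesSummable m (3 / 2 + t * I) :=
      ArithmeticFunction.LSeriesSummable_moebius_iff.2 (by rw [hre]; norm_num)
    have h3 : ∀ n, ‖LSeries.term m (3 / 2 + t * I) n‖ = ‖LSeries.term m (3 / 2) n‖ := by
      intro n
      rw [LSeries.norm_term_eq, LSeries.norm_term_eq, hre, hre0]
    calc ‖LSeries m (3 / 2 + t * I)‖ ≤ ∑' n, ‖LSeries.term m (3 / 2 + t * I) n‖ :=
          norm_tsum_le_tsum_norm h2.norm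
      _ = M := tsum_congr h3
  have h4 : ∀ t : ℝ, ‖riemannZeta (3 / 2 + t * I)‖ * ‖LSeries m (3 / 2 + t * I)‖ = 1 := by
    intro t
    have h5 : (1 : ℝ) < (3 / 2 + t * I : ℂ).re := by rw [hre]; norm_num
    have h6 := LSeries_one_mul_Lseries_moebius h5
    rw [LSeries_one_eq_riemannZeta h5] at h6
    rw [← norm_mul]
    have h7 : riemannZeta (3 / 2 + t * I) * LSeries m (3 / 2 + t * I) = 1 := h6
    rw [h7, norm_one]
  have hM0 : 0 < M := by
    have h5 := h4 0
    have h6 := h1 0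
    by_contra h7
    have h8 : ‖LSeries m (3 / 2 + (0 : ℝ) * I)‖ = 0 :=
      le_antisymm (h6.trans (not_lt.1 h7)) (norm_nonneg _)
    rw [h8, mul_zero] at h5
    exact zero_ne_one h5
  refine ⟨1 / M, by positivity, fun t => ?_⟩
  rw [div_le_iff₀ hM0]
  calc (1 : ℝ) = ‖riemannZeta (3 / 2 + t * I)‖ * ‖LSeries m (3 / 2 + t * I)‖ := (h4 t).symm
    _ ≤ ‖riemannZeta (3 / 2 + t * I)‖ * M := mul_le_mul_of_nonneg_left (h1 t) (norm_nonneg _)

/-! ### The function in the half-plane -/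

/-- the function `ζ(s) (s - 1) / (s + 1)`, `s = 1/2 + it + z` -/
noncomputable def ff (t : ℝ) (z : ℂ) : ℂ := H (z + (1 / 2 + t * I)) / (z + (1 / 2 + t * I) + 1)

theorem den_ne {t : ℝ} {z : ℂ} (hz : 0 ≤ z.re) : z + (1 / 2 + t * I) + 1 ≠ 0 := by
  intro h
  have h1 := congrArg Complex.re h
  simp at h1
  linarith

theorem ff_an (t : ℝ) {z : ℂ} (hz : 0 ≤ z.re) : AnalyticAt ℂ (ff t) z := by
  unfold ff
  refine AnalyticAt.div ?_ ?_ (den_ne hz)
  · exact (H_an _).fun_comp (by fun_prop)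
  · fun_prop

theorem norm_le_den {s : ℂ} (hs : 0 ≤ s.re) : ‖s - 1‖ ≤ ‖s + 1‖ := by
  rw [← sq_le_sq₀ (norm_nonneg _) (norm_nonneg _), Complex.sq_norm, Complex.sq_norm,
    Complex.normSq_apply, Complex.normSq_apply]
  simp only [Complex.sub_re, Complex.one_re, Complex.sub_im, Complex.one_im, Complex.add_re,
    Complex.add_im]
  nlinarith

theorem norm_le_den' {s : ℂ} (hs : 0 ≤ s.re) : ‖s‖ ≤ ‖s + 1‖ := by
  rw [← sq_le_sq₀ (norm_nonneg _) (norm_nonneg _), Complex.sq_norm, Complex.sq_norm,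
    Complex.normSq_apply, Complex.normSq_apply]
  simp only [Complex.one_re, Complex.one_im, Complex.add_re, Complex.add_im]
  nlinarith

theorem ff_le {t : ℝ} (ht : 4 ≤ t) {z : ℂ} (hz : 0 ≤ z.re) :
    ‖ff t z‖ ≤ Real.exp (Real.log (2 + 2 * t) * (1 + Real.log (1 + ‖z‖))) := by
  set s : ℂ := z + (1 / 2 + t * I) with hs
  have hsre : s.re = z.re + 1 / 2 := by simp [hs]
  have hs0 : (1 : ℝ) / 2 ≤ s.re := by rw [hsre]; linarith
  have hden : 0 < ‖s + 1‖ := norm_pos_iff.2 (den_ne hz)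
  have h1 : ‖ff t z‖ ≤ 1 + 2 * ‖s - 1‖ := by
    have h2 : ‖ff t z‖ = ‖H s‖ / ‖s + 1‖ := by
      unfold ff
      rw [norm_div]
    rw [h2, div_le_iff₀ hden]
    have h3 := H_le hs0
    have h4 := norm_le_den' (s := s) (by linarith)
    have h5 := norm_nonneg (s - 1)
    nlinarith [norm_nonneg s]
  have h6 : ‖s - 1‖ ≤ ‖z‖ + (1 / 2 + t) := by
    have h7 : s - 1 = z + (-(1 / 2) + t * I) := by rw [hs]; ring
    rw [h7]
    refine (norm_add_le _ _).trans (add_le_add le_rfl ((norm_add_le _ _).trans ?_))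
    rw [norm_neg, norm_mul, Complex.norm_I, mul_one, Complex.norm_real, Real.norm_eq_abs,
      abs_of_nonneg (by linarith)]
    norm_num
  have hL : 1 ≤ Real.log (2 + 2 * t) := by
    rw [Real.le_log_iff_exp_le (by linarith)]
    have := Real.exp_one_lt_d9
    linarith
  have hz1 : 0 ≤ Real.log (1 + ‖z‖) := Real.log_nonneg (by linarith [norm_nonneg z])
  calc ‖ff t z‖ ≤ (2 + 2 * t) * (1 + ‖z‖) := by nlinarith [norm_nonneg z]
    _ = Real.exp (Real.log (2 + 2 * t) + Real.log (1 + ‖z‖)) := by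
        rw [Real.exp_add, Real.exp_log (by linarith), Real.exp_log (by linarith [norm_nonneg z])]
    _ ≤ _ := by
        apply Real.exp_le_exp.2
        nlinarith

/-! ### The boundary values -/

theorem ff_line (t y : ℝ) : ff t (y * I) =
    riemannZeta (1 / 2 + ((t + y : ℝ) : ℂ) * I) *
      ((1 / 2 + ((t + y : ℝ) : ℂ) * I - 1) / (1 / 2 + ((t + y : ℝ) : ℂ) * I + 1)) := by
  have h1 : (y * I + (1 / 2 + t * I) : ℂ) = 1 / 2 + ((t + y : ℝ) : ℂ) * I := by
    push_cast
    ring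
  have h2 : (1 / 2 + ((t + y : ℝ) : ℂ) * I : ℂ) ≠ 1 := by
    intro h
    have := congrArg Complex.re h
    norm_num at this
  unfold ff
  rw [h1, H_of_ne h2]
  ring

theorem ratio (u : ℝ) : 1 / 3 ≤ ‖(1 / 2 + (u : ℂ) * I - 1) / (1 / 2 + (u : ℂ) * I + 1)‖ ∧
    ‖(1 / 2 + (u : ℂ) * I - 1) / (1 / 2 + (u : ℂ) * I + 1)‖ ≤ 1 := by
  have h0 : (1 / 2 + (u : ℂ) * I + 1 : ℂ) ≠ 0 := by
    intro h
    have := congrArg Complex.re h
    norm_num at this
  have hpos : 0 < ‖(1 / 2 + (u : ℂ) * I + 1 : ℂ)‖ := norm_pos_iff.2 h0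
  rw [norm_div]
  constructor
  · rw [le_div_iff₀ hpos]
    rw [← sq_le_sq₀ (by positivity) (norm_nonneg _), mul_pow, Complex.sq_norm, Complex.sq_norm,
      Complex.normSq_apply, Complex.normSq_apply]
    simp
    nlinarith [mul_self_nonneg u]
  · rw [div_le_one hpos]
    exact norm_le_den (by simp)

/-- the difference of the logarithms on the line -/
theorem log_line (t y : ℝ) :
    Real.log ‖ff t (y * I)‖ ≤ Real.log ‖riemannZeta (1 / 2 + ((t + y : ℝ) : ℂ) * I)‖ ∧
    |Real.log ‖riemannZeta (1 / 2 + ((t + y : ℝ) : ℂ) * I)‖| ≤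
      |Real.log ‖ff t (y * I)‖| + Real.log 3 := by
  rw [ff_line, norm_mul]
  obtain ⟨h1, h2⟩ := ratio (t + y)
  set q : ℝ := ‖(1 / 2 + ((t + y : ℝ) : ℂ) * I - 1) / (1 / 2 + ((t + y : ℝ) : ℂ) * I + 1)‖ with hq
  set p : ℝ := ‖riemannZeta (1 / 2 + ((t + y : ℝ) : ℂ) * I)‖ with hp
  have hq0 : 0 < q := by linarith
  have hlog3 : 0 ≤ Real.log 3 := Real.log_nonneg (by norm_num)
  by_cases hp0 : p = 0
  · rw [hp0, zero_mul, Real.log_zero]
    exact ⟨le_rfl, by simpa using hlog3⟩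
  · rw [Real.log_mul hp0 hq0.ne']
    have h3 : Real.log q ≤ 0 := Real.log_nonpos hq0.le h2
    have h4 : -Real.log 3 ≤ Real.log q := by
      rw [← Real.log_inv]
      exact Real.log_le_log (by norm_num) (by rw [← one_div]; exact h1)
    refine ⟨by linarith, ?_⟩
    have h5 : |Real.log p| ≤ |Real.log p + Real.log q| + |Real.log q| := by
      have := abs_sub (Real.log p + Real.log q) (Real.log q)
      rwa [add_sub_cancel_right] at this
    have h6 : |Real.log q| ≤ Real.log 3 := by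
      rw [abs_of_nonpos h3]
      linarith
    linarith

theorem zeta_line_meas (t : ℝ) :
    Measurable fun y : ℝ => Real.log ‖riemannZeta (1 / 2 + ((t + y : ℝ) : ℂ) * I)‖ := by
  have h1 : Continuous fun y : ℝ => riemannZeta (1 / 2 + ((t + y : ℝ) : ℂ) * I) := by
    rw [continuous_iff_continuousAt]
    intro y
    have h2 : (1 / 2 + ((t + y : ℝ) : ℂ) * I : ℂ) ≠ 1 := by
      intro h
      have := congrArg Complex.re h
      norm_num at this
    have h3 : ContinuousAt riemannZeta (1 / 2 + ((t + y : ℝ) : ℂ) * I) :=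
      (differentiableAt_riemannZeta h2).continuousAt
    exact ContinuousAt.comp (f := fun y : ℝ => (1 / 2 + ((t + y : ℝ) : ℂ) * I : ℂ)) h3
      (by fun_prop)
  exact Real.measurable_log.comp h1.norm.measurable

/-! ### The orders and the kernel -/

theorem order_eq (t : ℝ) {s : ℂ} (hs : s ≠ 1) (hre : 1 / 2 < s.re) :
    analyticOrderNatAt (ff t) (s - (1 / 2 + t * I)) = analyticOrderNatAt riemannZeta s := by
  set w₀ : ℂ := 1 / 2 + t * I with hw₀
  set z : ℂ := s - w₀ with hz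
  have hzs : z + w₀ = s := by rw [hz]; ring
  have hzre : 0 ≤ z.re := by
    have : z.re = s.re - 1 / 2 := by simp [hz, hw₀]
    rw [this]; linarith
  set k : ℂ → ℂ := fun x => (x + w₀ - 1) / (x + w₀ + 1) with hk
  have hkan : AnalyticAt ℂ k z := by
    refine AnalyticAt.div (by fun_prop) (by fun_prop) ?_
    exact den_ne hzre
  have hk0 : k z ≠ 0 := by
    refine div_ne_zero ?_ (den_ne hzre)
    rw [hzs]
    exact sub_ne_zero.2 hs
  have hsh : AnalyticAt ℂ (fun x : ℂ => x + w₀) z := by fun_prop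
  have h1 : ff t =ᶠ[𝓝 z] (riemannZeta ∘ fun x => x + w₀) * k := by
    have h2 : ∀ᶠ x in 𝓝 z, x + w₀ ≠ 1 := by
      have : ContinuousAt (fun x : ℂ => x + w₀) z := by fun_prop
      exact this.eventually_ne (by rw [hzs]; exact hs)
    filter_upwards [h2] with x hx
    show H (x + w₀) / (x + w₀ + 1) = riemannZeta (x + w₀) * ((x + w₀ - 1) / (x + w₀ + 1))
    rw [H_of_ne hx]
    ring
  have hζ : AnalyticAt ℂ (riemannZeta ∘ fun x => x + w₀) z := by
    refine AnalyticAt.comp ?_ hsh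
    rw [hzs, Complex.analyticAt_iff_eventually_differentiableAt]
    filter_upwards [isOpen_ne.mem_nhds hs] with x hx
    exact differentiableAt_riemannZeta hx
  unfold analyticOrderNatAt
  rw [analyticOrderAt_congr h1, analyticOrderAt_mul hζ hkan,
    hkan.analyticOrderAt_eq_zero.2 hk0, add_zero, analyticOrderAt_comp_of_deriv_ne_zero hsh ?_, hzs]
  have h3 : HasDerivAt (fun x : ℂ => x + w₀) 1 z := (hasDerivAt_id z).add_const w₀
  rw [h3.deriv]
  exact one_ne_zero

theorem kernel {A : ℝ} {z : ℂ} (h0 : 0 < z.re) (h1 : z.re ≤ 1 / 2) (hA : |z.im| ≤ A) :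
    2 / (3 * (1 + A ^ 2)) * z.re ≤ Real.log (‖(1 : ℂ) + z‖ / ‖(1 : ℂ) - z‖) := by
  set x : ℝ := z.re with hx
  set y : ℝ := z.im with hy
  have hy2 : y ^ 2 ≤ A ^ 2 := by
    rw [← sq_abs y]
    exact pow_le_pow_left₀ (abs_nonneg _) hA 2
  have hd : 0 < (1 - x) ^ 2 + y ^ 2 := by
    have : 0 < (1 - x) ^ 2 := by
      have : 0 < 1 - x := by linarith
      positivity
    nlinarith [sq_nonneg y]
  have hn1 : ‖(1 : ℂ) + z‖ ^ 2 = (1 + x) ^ 2 + y ^ 2 := by
    rw [Complex.sq_norm, Complex.normSq_apply]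
    simp only [Complex.add_re, Complex.one_re, Complex.add_im, Complex.one_im, ← hx, ← hy]
    ring
  have hn2 : ‖(1 : ℂ) - z‖ ^ 2 = (1 - x) ^ 2 + y ^ 2 := by
    rw [Complex.sq_norm, Complex.normSq_apply]
    simp only [Complex.sub_re, Complex.one_re, Complex.sub_im, Complex.one_im, ← hx, ← hy]
    ring
  have hA1 : (0 : ℝ) < 1 + A ^ 2 := by positivity
  set η : ℝ := 4 * x / (1 + A ^ 2) with hη
  have hη0 : 0 ≤ η := by positivity
  have hη2 : η ≤ 2 := by
    rw [hη, div_le_iff₀ hA1]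
    nlinarith [sq_nonneg A]
  have h3 : 1 + η ≤ (‖(1 : ℂ) + z‖ / ‖(1 : ℂ) - z‖) ^ 2 := by
    rw [div_pow, hn1, hn2, le_div_iff₀ hd]
    have h4 : η * ((1 - x) ^ 2 + y ^ 2) ≤ 4 * x := by
      rw [hη, div_mul_eq_mul_div, div_le_iff₀ hA1]
      have : (1 - x) ^ 2 + y ^ 2 ≤ 1 + A ^ 2 := by nlinarith
      exact mul_le_mul_of_nonneg_left this (by linarith)
    nlinarith
  have h5 : η / 3 ≤ Real.log (1 + η) := by
    have h6 := Real.one_sub_inv_le_log_of_pos (show (0 : ℝ) < 1 + η by linarith)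
    have h7 : η / 3 ≤ 1 - (1 + η)⁻¹ := by
      have h8 : 1 - (1 + η)⁻¹ = η / (1 + η) := by
        field_simp
        ring
      rw [h8]
      exact div_le_div_of_nonneg_left hη0 (by linarith) (by linarith)
    linarith
  have h9 : Real.log (1 + η) ≤ 2 * Real.log (‖(1 : ℂ) + z‖ / ‖(1 : ℂ) - z‖) := by
    have h := Real.log_le_log (by linarith) h3
    rw [Real.log_pow] at h
    exact_mod_cast h
  have h10 : 2 / (3 * (1 + A ^ 2)) * x = η / 3 / 2 := by
    rw [hη]
    field_simp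
    ring
  rw [h10]
  linarith

/-! ### The theorem -/

theorem main (h : S_PJ) : S_ZV := by
  intro A
  obtain ⟨c₀, hc₀, hlow⟩ := zeta_low
  set c₁ : ℝ := min (c₀ / 2) 1 with hc₁
  have hc₁0 : 0 < c₁ := lt_min (by positivity) one_pos
  have hlogc : Real.log c₁ ≤ 0 := Real.log_nonpos hc₁0.le (min_le_right _ _)
  set κ : ℝ := 2 / (3 * (1 + A ^ 2)) with hκ
  have hκ0 : 0 < κ := by positivity
  set B : ℝ := -(Real.pi * Real.log c₁) with hB
  have hπ := Real.pi_pos
  have hB0 : 0 ≤ B := by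
    have := mul_nonpos_of_nonneg_of_nonpos hπ.le hlogc
    linarith
  set C : ℝ := max (1 / (κ * Real.pi)) (max B 1) with hC
  have hC1 : 1 / (κ * Real.pi) ≤ C := le_max_left _ _
  have hC2 : B ≤ C := (le_max_left _ _).trans (le_max_right _ _)
  have hC3 : 1 ≤ C := (le_max_right _ _).trans (le_max_right _ _)
  refine ⟨C, by linarith, fun t ht => ?_⟩
  have hPJ := h (ff t) (Real.log (2 + 2 * t)) 1 one_pos (fun z hz => ff_an t hz)
    (fun z hz => ff_le ht hz)
  -- the value at `1`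
  have hv : c₁ ≤ ‖ff t ((1 : ℝ) : ℂ)‖ := by
    have e1 : (((1 : ℝ) : ℂ) + (1 / 2 + t * I) : ℂ) = 3 / 2 + t * I := by
      push_cast
      ring
    have e2 : (3 / 2 + t * I : ℂ) ≠ 1 := by
      intro h
      have := congrArg Complex.re h
      norm_num at this
    have e3 : ff t ((1 : ℝ) : ℂ) = riemannZeta (3 / 2 + t * I) *
        ((1 / 2 + t * I) / (5 / 2 + t * I)) := by
      unfold ff
      rw [e1, H_of_ne e2]
      have e4 : (3 / 2 + t * I - 1 : ℂ) = 1 / 2 + t * I := by ring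
      have e5 : (3 / 2 + t * I + 1 : ℂ) = 5 / 2 + t * I := by ring
      rw [e4, e5]
      ring
    have e6 : (5 / 2 + t * I : ℂ) ≠ 0 := by
      intro h
      have := congrArg Complex.re h
      norm_num at this
    have e7 : (1 : ℝ) / 2 ≤ ‖(1 / 2 + t * I : ℂ) / (5 / 2 + t * I)‖ := by
      rw [norm_div, le_div_iff₀ (norm_pos_iff.2 e6), ← sq_le_sq₀ (by positivity) (norm_nonneg _),
        mul_pow, Complex.sq_norm, Complex.sq_norm, Complex.normSq_apply, Complex.normSq_apply]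
      simp
      nlinarith
    rw [e3, norm_mul]
    calc c₁ ≤ c₀ / 2 := min_le_left _ _
      _ = c₀ * (1 / 2) := by ring
      _ ≤ _ := mul_le_mul (hlow t) e7 (by norm_num) (norm_nonneg _)
  have hv0 : ff t ((1 : ℝ) : ℂ) ≠ 0 := by
    intro h0
    rw [h0, norm_zero] at hv
    linarith
  obtain ⟨hint, hsum⟩ := hPJ hv0
  -- the integrals
  set G : ℝ → ℝ := fun y =>
    Real.log ‖riemannZeta (1 / 2 + ((t + y : ℝ) : ℂ) * I)‖ / (1 + y ^ 2) with hG
  have hk : Integrable fun y : ℝ => (1 + y ^ 2)⁻¹ := integrable_inv_one_add_sq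
  have hGi : Integrable G := by
    refine Integrable.mono' (g := fun y : ℝ =>
      ‖Real.log ‖ff t (y * I)‖ / (1 ^ 2 + y ^ 2)‖ + Real.log 3 * (1 + y ^ 2)⁻¹)
      (hint.norm.add (hk.const_mul _)) ?_ ?_
    · exact ((zeta_line_meas t).div (by fun_prop)).aestronglyMeasurable
    · refine Filter.Eventually.of_forall fun y => ?_
      have h1 : (0 : ℝ) < 1 + y ^ 2 := by positivity
      have h2 := (log_line t y).2
      rw [hG, Real.norm_eq_abs, abs_div, abs_of_pos h1, Real.norm_eq_abs, abs_div, one_pow,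
        abs_of_pos h1, ← div_eq_mul_inv, ← add_div]
      exact div_le_div_of_nonneg_right h2 h1.le
  have hshift : (fun u : ℝ => Real.log ‖riemannZeta (1 / 2 + u * Complex.I)‖ / (1 + (u - t) ^ 2)) =
      fun u => G (u - t) := by
    funext u
    rw [hG]
    simp only [add_sub_cancel]
  have hVV : VV t = ∫ y, G y := by
    unfold VV
    rw [hshift]
    exact integral_sub_right_eq_self G t
  refine ⟨by rw [hshift]; exact hGi.comp_sub_right t, fun S hS => ?_⟩
  have hle : ∫ y : ℝ, Real.log ‖ff t (y * I)‖ / (1 ^ 2 + y ^ 2) ≤ VV t := by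
    rw [hVV]
    refine integral_mono hint hGi fun y => ?_
    have h1 : (0 : ℝ) < 1 + y ^ 2 := by positivity
    show Real.log ‖ff t (y * I)‖ / (1 ^ 2 + y ^ 2) ≤ _ / (1 + y ^ 2)
    rw [one_pow]
    exact div_le_div_of_nonneg_right (log_line t y).1 h1.le
  -- the zeros
  have hne : ∀ s ∈ S, s ≠ 1 ∧ s.re < 1 := by
    intro s hs
    obtain ⟨h1, h2, h3⟩ := hS s hs
    have h4 : s.re < 1 := by
      by_contra h5
      exact riemannZeta_ne_zero_of_one_le_re (not_lt.1 h5) h3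
    refine ⟨?_, h4⟩
    rintro rfl
    simp at h4
  have hinj : Function.Injective fun s : ℂ => s - (1 / 2 + t * I) := sub_left_injective
  have hPJS := hsum (S.image fun s => s - (1 / 2 + t * I)) (by
    intro z hz
    obtain ⟨s, hs, rfl⟩ := Finset.mem_image.1 hz
    obtain ⟨h1, h2, h3⟩ := hS s hs
    refine ⟨by simpa using h1, ?_⟩
    unfold ff
    rw [sub_add_cancel, H_of_ne (hne s hs).1, h3, mul_zero, zero_div])
  rw [Finset.sum_image fun _ _ _ _ e => hinj e] at hPJS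
  have hterm : κ * ∑ s ∈ S, (analyticOrderNatAt riemannZeta s : ℝ) * (s.re - 1 / 2) ≤
      ∑ s ∈ S, (analyticOrderNatAt (ff t) (s - (1 / 2 + t * I)) : ℝ) *
        Real.log (‖(((1 : ℝ) : ℂ)) + (s - (1 / 2 + t * I))‖ /
          ‖(((1 : ℝ) : ℂ)) - (s - (1 / 2 + t * I))‖) := by
    rw [Finset.mul_sum]
    refine Finset.sum_le_sum fun s hs => ?_
    obtain ⟨h1, h2, h3⟩ := hS s hs
    obtain ⟨h4, h5⟩ := hne s hs
    rw [order_eq t h4 h1]
    have h6 : (s - (1 / 2 + t * I)).re = s.re - 1 / 2 := by simp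
    have h7 : (s - (1 / 2 + t * I)).im = s.im - t := by simp
    have h8 := kernel (A := A) (z := s - (1 / 2 + t * I)) (by rw [h6]; linarith)
      (by rw [h6]; linarith) (by rw [h7]; exact h2)
    rw [h6] at h8
    rw [Complex.ofReal_one]
    calc κ * ((analyticOrderNatAt riemannZeta s : ℝ) * (s.re - 1 / 2))
        = (analyticOrderNatAt riemannZeta s : ℝ) * (κ * (s.re - 1 / 2)) := by ring
      _ ≤ _ := mul_le_mul_of_nonneg_left h8 (Nat.cast_nonneg _)
  have hlogv : Real.log c₁ ≤ Real.log ‖ff t ((1 : ℝ) : ℂ)‖ := Real.log_le_log hc₁0 hv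
  set T₀ : ℝ := ∑ s ∈ S, (analyticOrderNatAt riemannZeta s : ℝ) * (s.re - 1 / 2) with hT
  have hT0 : 0 ≤ T₀ := by
    refine Finset.sum_nonneg fun s hs => mul_nonneg (Nat.cast_nonneg _) ?_
    linarith [(hS s hs).1]
  have hfin : κ * T₀ ≤ 1 / Real.pi * (VV t + B) := by
    have h1 : 1 / Real.pi * ∫ y : ℝ, Real.log ‖ff t (y * I)‖ / (1 ^ 2 + y ^ 2) ≤
        1 / Real.pi * VV t := mul_le_mul_of_nonneg_left hle (by positivity)
    have h2 : 1 / Real.pi * B = -Real.log c₁ := by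
      rw [hB]
      field_simp
    rw [mul_add, h2]
    linarith
  have hVB : 0 ≤ VV t + B := by
    have h1 : 0 ≤ 1 / Real.pi * (VV t + B) := (mul_nonneg hκ0.le hT0).trans hfin
    exact (mul_nonneg_iff_of_pos_left (by positivity)).1 h1
  calc T₀ ≤ 1 / (κ * Real.pi) * (VV t + B) := by
        have h1 : T₀ = 1 / κ * (κ * T₀) := by field_simp
        rw [h1]
        calc 1 / κ * (κ * T₀) ≤ 1 / κ * (1 / Real.pi * (VV t + B)) :=
              mul_le_mul_of_nonneg_left hfin (by positivity)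
          _ = 1 / (κ * Real.pi) * (VV t + B) := by
              field_simp
    _ ≤ C * (VV t + B) := mul_le_mul_of_nonneg_right hC1 hVB
    _ ≤ C * (VV t + C) := mul_le_mul_of_nonneg_left (by linarith) (by linarith)

end Pool.Agent.N27.GM3
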