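import Pool.Agent.N906.KG.Nt

/-!
# Project KG (helper906), part TEL (helper27): two telescoping sums
-/

set_option autoImplicit false

namespace Pool.Agent.N27.KG

open NumberField Finset Pool.Agent.H691R3 Pool.Agent.W223.AK Pool.Agent.N906.KG

/-! ### Suprema and infima over the later indices -/

/-- the later indices, shifted by one -/
theorem later_surj {N : ℕ} (j : Fin (N + 1)) :
    Function.Surjective (fun i : {i : Fin (N + 1) // j < i} =>
      (⟨i.1.succ, Fin.succ_lt_succ_iff.2 i.2⟩ : {i : Fin (N + 2) // j.succ < i})) := by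
  rintro ⟨i, hi⟩
  have h0 : i ≠ 0 := by
    rintro rfl
    exact absurd hi (Fin.not_lt_zero _)
  obtain ⟨k, rfl⟩ := Fin.exists_succ_eq.2 h0
  exact ⟨⟨k, Fin.succ_lt_succ_iff.1 hi⟩, rfl⟩

theorem sup_later {N : ℕ} {α : Type} [SupSet α] (b : Fin (N + 2) → α) (j : Fin (N + 1)) :
    (⨆ i : {i : Fin (N + 2) // j.succ < i}, b i) = ⨆ i : {i : Fin (N + 1) // j < i}, b i.1.succ :=
  ((later_surj j).iSup_congr _ fun _ => rfl).symm

theorem inf_later {N : ℕ} {α : Type} [InfSet α] (b : Fin (N + 2) → α) (j : Fin (N + 1)) :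
    (⨅ i : {i : Fin (N + 2) // j.succ < i}, b i) = ⨅ i : {i : Fin (N + 1) // j < i}, b i.1.succ :=
  ((later_surj j).iInf_congr _ fun _ => rfl).symm

/-- all indices after the first one -/
theorem pos_surj (N : ℕ) : Function.Surjective (fun i : Fin (N + 1) =>
    (⟨i.succ, Fin.succ_pos i⟩ : {i : Fin (N + 2) // 0 < i})) := by
  rintro ⟨i, hi⟩
  obtain ⟨k, rfl⟩ := Fin.exists_succ_eq.2 hi.ne'
  exact ⟨k, rfl⟩

theorem sup_pos {N : ℕ} {α : Type} [SupSet α] (b : Fin (N + 2) → α) :
    (⨆ i : {i : Fin (N + 2) // 0 < i}, b i) = ⨆ i : Fin (N + 1), b i.succ :=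
  ((pos_surj N).iSup_congr _ fun _ => rfl).symm

theorem inf_pos {N : ℕ} {α : Type} [InfSet α] (b : Fin (N + 2) → α) :
    (⨅ i : {i : Fin (N + 2) // 0 < i}, b i) = ⨅ i : Fin (N + 1), b i.succ :=
  ((pos_surj N).iInf_congr _ fun _ => rfl).symm

theorem sup_all {N : ℕ} (b : Fin (N + 2) → ℝ) :
    (⨆ i, b i) = max (b 0) (⨆ i : Fin (N + 1), b i.succ) := by
  apply le_antisymm
  · apply ciSup_le
    intro i
    rcases Fin.eq_zero_or_eq_succ i with rfl | ⟨k, rfl⟩
    · exact le_max_left _ _
    · exact le_max_of_le_right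
        (le_ciSup (f := fun i : Fin (N + 1) => b i.succ) (Set.finite_range _).bddAbove k)
  · apply max_le
    · exact le_ciSup (Set.finite_range _).bddAbove 0
    · exact ciSup_le fun k => le_ciSup (Set.finite_range _).bddAbove k.succ

theorem inf_all {N : ℕ} (b : Fin (N + 2) → ℕ) :
    (⨅ i, b i) = min (b 0) (⨅ i : Fin (N + 1), b i.succ) := by
  apply le_antisymm
  · apply le_min
    · exact ciInf_le (OrderBot.bddBelow _) 0
    · exact le_ciInf fun k => ciInf_le (OrderBot.bddBelow _) k.succ
  · apply le_ciInf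
    intro i
    rcases Fin.eq_zero_or_eq_succ i with rfl | ⟨k, rfl⟩
    · exact min_le_left _ _
    · exact min_le_of_right_le (ciInf_le (f := fun i : Fin (N + 1) => b i.succ)
        (OrderBot.bddBelow _) k)

/-! ### The telescoping product and sum -/

theorem tel_prod (N : ℕ) : ∀ b : Fin (N + 1) → ℝ,
    (∏ j : Fin N, min (b j.castSucc) (⨆ i : {i : Fin (N + 1) // j.castSucc < i}, b i)) *
      (⨆ k, b k) = ∏ k, b k := by
  induction N with
  | zero =>
    intro b
    rw [Fin.prod_univ_zero, one_mul, Fin.prod_univ_one]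
    exact ciSup_unique (ι := Fin 1) (s := b)
  | succ N ih =>
    intro b
    have h1 := ih fun i => b i.succ
    rw [Fin.prod_univ_succ, Fin.prod_univ_succ (fun k => b k), ← h1, sup_all]
    have h2 : ∏ j : Fin N, min (b j.succ.castSucc)
          (⨆ i : {i : Fin (N + 2) // j.succ.castSucc < i}, b i) =
        ∏ j : Fin N, min (b j.castSucc.succ)
          (⨆ i : {i : Fin (N + 1) // j.castSucc < i}, b i.1.succ) := by
      refine Finset.prod_congr rfl fun j _ => ?_
      have h3 := sup_later b j.castSucc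
      rw [← h3]
      rfl
    rw [h2]
    have h4 : (⨆ i : {i : Fin (N + 2) // (0 : Fin (N + 1)).castSucc < i}, b i) =
        ⨆ i : Fin (N + 1), b i.succ := sup_pos b
    rw [h4, Fin.castSucc_zero]
    generalize (⨆ i : Fin (N + 1), b i.succ) = s
    rw [mul_right_comm, min_mul_max]
    ring

theorem tel_sum (N : ℕ) : ∀ b : Fin (N + 1) → ℕ,
    (∑ j : Fin N, max (b j.castSucc) (⨅ i : {i : Fin (N + 1) // j.castSucc < i}, b i)) +
      (⨅ k, b k) = ∑ k, b k := by
  induction N with
  | zero =>
    intro b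
    rw [Fin.sum_univ_zero, zero_add, Fin.sum_univ_one]
    exact ciInf_unique (ι := Fin 1) (s := b)
  | succ N ih =>
    intro b
    have h1 := ih fun i => b i.succ
    rw [Fin.sum_univ_succ, Fin.sum_univ_succ (fun k => b k), ← h1, inf_all]
    have h2 : ∑ j : Fin N, max (b j.succ.castSucc)
          (⨅ i : {i : Fin (N + 2) // j.succ.castSucc < i}, b i) =
        ∑ j : Fin N, max (b j.castSucc.succ)
          (⨅ i : {i : Fin (N + 1) // j.castSucc < i}, b i.1.succ) := by
      refine Finset.sum_congr rfl fun j _ => ?_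
      have h3 := inf_later b j.castSucc
      rw [← h3]
      rfl
    rw [h2]
    have h4 : (⨅ i : {i : Fin (N + 2) // (0 : Fin (N + 1)).castSucc < i}, b i) =
        ⨅ i : Fin (N + 1), b i.succ := inf_pos b
    rw [h4, Fin.castSucc_zero]
    generalize (⨅ i : Fin (N + 1), b i.succ) = s
    have h5 := max_add_min (b 0) s
    omega

/-- TEL -/
theorem tel (K : Type) [Field K] [NumberField K] : S_TEL K := by
  intro N e _
  constructor
  · intro B hB
    have hsup : ∀ w, 0 < ⨆ k, B k w := fun w =>
      (hB 0 w).trans_le (le_ciSup (f := fun k => B k w) (Set.finite_range _).bddAbove 0)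
    have hpos : 0 < bn fun w => ⨆ k, B k w := Finset.prod_pos fun w _ => pow_pos (hsup w) _
    unfold vol
    rw [eq_div_iff hpos.ne']
    unfold Rj bn
    rw [Finset.prod_comm, ← Finset.prod_mul_distrib, Finset.prod_comm]
    refine Finset.prod_congr rfl fun w _ => ?_
    rw [Finset.prod_pow, ← mul_pow, Finset.prod_pow]
    congr 1
    have h1 := tel_prod N fun i => B (e i) w
    have h2 : (⨆ k, B (e k) w) = ⨆ k, B k w := e.surjective.iSup_comp (fun k => B k w)
    have h3 : ∏ k, B (e k) w = ∏ k, B k w := Equiv.prod_comp e (fun k => B k w)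
    rw [h2, h3] at h1
    exact h1
  · intro D hD
    have h1 : ∀ v, ∑ j : Fin N, max (D (e j.castSucc) v)
        (⨅ i : {i : Fin (N + 1) // j.castSucc < i}, D (e i) v) = ∑ k, D k v := by
      intro v
      have h2 := tel_sum N fun i => D (e i) v
      have h3 : (⨅ k, D (e k) v) = ⨅ k, D k v := e.surjective.iInf_comp (fun k => D k v)
      have h4 : ∑ k, D (e k) v = ∑ k, D k v := Equiv.sum_comp e (fun k => D k v)
      have h5 : (⨅ k, D k v) = 0 := by
        obtain ⟨i, hi⟩ := hD v
        exact Nat.le_zero.1 ((ciInf_le (OrderBot.bddBelow _) i).trans hi.le)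
      rw [h3, h4, h5, add_zero] at h2
      exact h2
    unfold lj tl
    rw [Finset.sum_comm]
    have h6 : ∀ k, len (D k) = ∑ v ∈ sp D, (D k v : ℝ) * Real.log (Nv v) := by
      intro k
      unfold len
      refine Finset.sum_subset ?_ ?_
      · intro v hv
        classical
        unfold sp
        exact Finset.mem_biUnion.2 ⟨k, Finset.mem_univ _, hv⟩
      · intro v _ hv
        rw [Finsupp.notMem_support_iff.1 hv, Nat.cast_zero, zero_mul]
    simp only [h6]
    rw [Finset.sum_comm (s := univ (α := Fin (N + 1)))]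
    refine Finset.sum_congr rfl fun v _ => ?_
    rw [← Finset.sum_mul, ← Finset.sum_mul]
    congr 1
    have h7 := h1 v
    exact_mod_cast h7

end Pool.Agent.N27.KG
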